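import Mathlib

set_option autoImplicit false

namespace Pool.Agent.Lib.MP_8b3477_lc

open Cardinal Set

/-- strictly monotone embeddability of linear orders -/
def Emb (X Y : Type) [Preorder X] [Preorder Y] : Prop := ∃ f : X → Y, StrictMono f

/-- The space `ℚ^ω`. -/
abbrev N : Type := ℕ → ℚ

/-- lexicographic strict order on `N` -/
def LT' (x y : N) : Prop := ∃ i, (∀ j < i, x j = y j) ∧ x i < y i

/-- agreement below `k` -/
def Ag (k : ℕ) (x y : N) : Prop := ∀ i < k, x i = y i

/-- equality modulo finite -/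
def Eqf (x y : N) : Prop := ∃ m, ∀ k ≥ m, x k = y k

/-- prefix of length `k` -/
def pre (x : N) (k : ℕ) : List ℚ := (List.range k).map x

/-- overwrite the first digits of `x` by `t` -/
def splice (t : List ℚ) (x : N) : N := fun k => t.getD k (x k)

theorem splice_lt (t : List ℚ) (x : N) (k : ℕ) (h : k < t.length) : splice t x k = t[k] := by
  simp [splice, List.getD_eq_getElem?_getD, List.getElem?_eq_getElem h]

theorem splice_ge (t : List ℚ) (x : N) (k : ℕ) (h : t.length ≤ k) : splice t x k = x k := by
  simp [splice, List.getD_eq_getElem?_getD, List.getElem?_eq_none h]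

theorem splice_eqf (t : List ℚ) (x : N) : Eqf (splice t x) x :=
  ⟨t.length, fun k hk => splice_ge t x k hk⟩

theorem Eqf.refl (x : N) : Eqf x x := ⟨0, fun _ _ => rfl⟩

theorem Eqf.symm {x y : N} (h : Eqf x y) : Eqf y x := by
  obtain ⟨m, hm⟩ := h
  exact ⟨m, fun k hk => (hm k hk).symm⟩

theorem Eqf.trans {x y z : N} (h : Eqf x y) (h' : Eqf y z) : Eqf x z := by
  obtain ⟨m, hm⟩ := h
  obtain ⟨m', hm'⟩ := h'
  exact ⟨max m m', fun k hk => (hm k (le_trans (le_max_left _ _) hk)).trans
    (hm' k (le_trans (le_max_right _ _) hk))⟩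

theorem Ag.refl (k : ℕ) (x : N) : Ag k x x := fun _ _ => rfl

theorem Ag.symm {k : ℕ} {x y : N} (h : Ag k x y) : Ag k y x := fun i hi => (h i hi).symm

theorem Ag.trans {k : ℕ} {x y z : N} (h : Ag k x y) (h' : Ag k y z) : Ag k x z :=
  fun i hi => (h i hi).trans (h' i hi)

theorem Ag.mono {k k' : ℕ} {x y : N} (hk : k' ≤ k) (h : Ag k x y) : Ag k' x y :=
  fun i hi => h i (lt_of_lt_of_le hi hk)

theorem pre_length (x : N) (k : ℕ) : (pre x k).length = k := by simp [pre]

theorem pre_succ (x : N) (k : ℕ) : pre x (k + 1) = pre x k ++ [x k] := by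
  simp [pre, List.range_succ]

theorem pre_eq_iff {x y : N} {k : ℕ} : pre x k = pre y k ↔ Ag k x y := by
  simp [pre, Ag]

theorem pre_getElem (x : N) (k i : ℕ) (h : i < (pre x k).length) : (pre x k)[i] = x i := by
  simp [pre]

theorem pre_getD (x : N) (k i : ℕ) (d : ℚ) (h : i < k) : (pre x k).getD i d = x i := by
  simp [pre, List.getD_eq_getElem?_getD, h]

/-- eventually constant prefixes: `Ag` for all `k` is equality -/
theorem eq_of_ag {x y : N} (h : ∀ k, Ag k x y) : x = y := by
  funext i
  exact h (i + 1) i (Nat.lt_succ_self i)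

theorem LT'.irrefl (x : N) : ¬ LT' x x := by
  rintro ⟨i, _, h⟩
  exact lt_irrefl _ h

theorem LT'.trans {x y z : N} (h : LT' x y) (h' : LT' y z) : LT' x z := by
  obtain ⟨i, hi, hlt⟩ := h
  obtain ⟨j, hj, hlt'⟩ := h'
  rcases lt_trichotomy i j with hij | hij | hij
  · refine ⟨i, fun k hk => (hi k hk).trans (hj k (hk.trans hij)), ?_⟩
    rw [← hj i hij]; exact hlt
  · subst hij
    exact ⟨i, fun k hk => (hi k hk).trans (hj k hk), hlt.trans hlt'⟩
  · refine ⟨j, fun k hk => (hi k (hk.trans hij)).trans (hj k hk), ?_⟩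
    rw [hi j hij]; exact hlt'

theorem LT'.trichotomy (x y : N) : LT' x y ∨ x = y ∨ LT' y x := by
  classical
  by_cases h : x = y
  · exact Or.inr (Or.inl h)
  · have hne : ∃ i, x i ≠ y i := by
      by_contra hcon
      push Not at hcon
      exact h (funext hcon)
    have h1 := Nat.find_spec hne
    have h2 : ∀ j < Nat.find hne, x j = y j := fun j hj => by
      have := Nat.find_min hne hj
      push Not at this
      exact this
    rcases lt_or_gt_of_ne h1 with h3 | h3
    · exact Or.inl ⟨_, h2, h3⟩
    · exact Or.inr (Or.inr ⟨_, fun j hj => (h2 j hj).symm, h3⟩)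

theorem LT'.asymm {x y : N} (h : LT' x y) : ¬ LT' y x := fun h' => LT'.irrefl x (h.trans h')

/-- cylinders are order convex -/
theorem ag_of_between {k : ℕ} {x y z u : N} (hxy : LT' x y) (hyz : LT' y z)
    (hx : Ag k u x) (hz : Ag k u z) : Ag k u y := by
  obtain ⟨i, hi, hlt⟩ := hxy
  obtain ⟨j, hj, hlt'⟩ := hyz
  -- show that the first difference `i` of `x,y` is at least `k`, or derive a contradiction
  intro l hl
  by_contra hne
  -- let `m` be minimal with `u m ≠ y m`
  classical
  have hex : ∃ m, m < k ∧ u m ≠ y m := ⟨l, hl, hne⟩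
  have h1 := Nat.find_spec hex
  have h2 : ∀ m < Nat.find hex, u m = y m := fun m hm => by
    have := Nat.find_min hex hm
    push Not at this
    exact this (hm.trans h1.1)
  set m := Nat.find hex with hm
  have him : i = m := by
    rcases lt_trichotomy i m with h | h | h
    · exfalso
      have e1 : x i = u i := (hx i (h.trans h1.1)).symm
      have e2 : u i = y i := h2 i h
      rw [e1, e2] at hlt
      exact lt_irrefl _ hlt
    · exact h
    · exfalso
      have e1 : x m = y m := hi m h
      exact h1.2 ((hx m h1.1).trans e1)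
  have hjm : j = m := by
    rcases lt_trichotomy j m with h | h | h
    · exfalso
      have e1 : u j = z j := hz j (h.trans h1.1)
      have e2 : u j = y j := h2 j h
      rw [← e1, ← e2] at hlt'
      exact lt_irrefl _ hlt'
    · exact h
    · exfalso
      have e1 : y m = z m := hj m h
      exact h1.2 ((hz m h1.1).trans e1.symm)
  rw [him] at hlt
  rw [hjm] at hlt'
  rw [← hx m h1.1] at hlt
  rw [← hz m h1.1] at hlt'
  exact lt_irrefl _ (hlt.trans hlt')

/-- if `x < y` then the same is true for all points close to `x`. -/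
theorem lt_of_ag_left {x y : N} (h : LT' x y) : ∃ k, ∀ x', Ag k x x' → LT' x' y := by
  obtain ⟨i, hi, hlt⟩ := h
  refine ⟨i + 1, fun x' hx' => ⟨i, fun j hj => ?_, ?_⟩⟩
  · rw [← hx' j (by omega)]; exact hi j hj
  · rw [← hx' i (by omega)]; exact hlt

theorem lt_of_ag_right {x y : N} (h : LT' x y) : ∃ k, ∀ y', Ag k y y' → LT' x y' := by
  obtain ⟨i, hi, hlt⟩ := h
  refine ⟨i + 1, fun y' hy' => ⟨i, fun j hj => ?_, ?_⟩⟩
  · rw [← hy' j (by omega)]; exact hi j hj
  · rw [← hy' i (by omega)]; exact hlt

theorem list_lex_append {a b : ℚ} (l : List ℚ) (s t : List ℚ) (h : a < b) :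
    l ++ (a :: s) < l ++ (b :: t) := by
  induction l with
  | nil => exact List.Lex.rel h
  | cons c l ih => exact List.Lex.cons ih

theorem pre_lt {x y : N} {i k : ℕ} (hi : ∀ j < i, x j = y j) (hlt : x i < y i) (hk : i < k) :
    pre x k < pre y k := by
  have key : ∀ z : N, pre z k = pre z i ++ (z i :: (List.range' (i+1) (k - (i+1))).map z) := by
    intro z
    have : List.range k = List.range i ++ (i :: List.range' (i+1) (k - (i+1))) := by
      rw [List.range_eq_range', List.range_eq_range']
      have : k = i + ((k - (i+1)) + 1) := by omega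
      conv_lhs => rw [this]
      rw [← List.range'_append_1, List.range'_succ]
      simp
    simp only [pre]
    rw [this, List.map_append, List.map_cons]
  rw [key x, key y, (pre_eq_iff.2 (show Ag i x y from hi))]
  exact list_lex_append _ _ _ hlt

end Pool.Agent.Lib.MP_8b3477_lc
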