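import Pool.Agent.Lib.MP_8b3477_lc.Claim

set_option autoImplicit false

namespace Pool.Agent.Lib.MP_8b3477_lc

open Cardinal Set

theorem exists_rec {ι V : Type} [LinearOrder ι] [WellFoundedLT ι]
    (Spec : ∀ t : ι, (Set.Iio t → V) → V → Prop) (h : ∀ t prev, ∃ p, Spec t prev p) :
    ∃ v : ι → V, ∀ t, Spec t (fun s => v s.1) (v t) := by
  classical
  let step : ∀ t : ι, (∀ s, s < t → V) → V := fun t ih => (h t (fun s => ih s.1 s.2)).choose
  refine ⟨(wellFounded_lt (α := ι)).fix step, fun t => ?_⟩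
  have h1 := (wellFounded_lt (α := ι)).fix_eq step t
  rw [h1]
  exact (h t _).choose_spec

theorem mk_iUnion_lt {ι : Type} (hι : #ι < 𝔠) (f : ι → Set N) (hf : ∀ i, (f i).Countable) :
    #(⋃ i, f i) < 𝔠 := by
  refine (Cardinal.mk_iUnion_le_sum_mk).trans_lt ?_
  have h1 : (Cardinal.sum fun i => #(f i)) ≤ Cardinal.sum (fun _ : ι => ℵ₀) :=
    Cardinal.sum_le_sum _ _ (fun i => (hf i).le_aleph0)
  refine h1.trans_lt ?_
  rw [Cardinal.sum_const]
  simp only [Cardinal.lift_id]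
  exact Cardinal.mul_lt_of_lt Cardinal.aleph0_le_continuum hι Cardinal.aleph0_lt_continuum

/-- tasks of the construction -/
abbrev Task : Type := (List ℚ → N) × (Bool × (ℕ → N × N))

theorem mk_N : #N = 𝔠 := by
  simp [N]

theorem mk_Task : #Task = 𝔠 := by
  have h1 : #(List ℚ → N) = 𝔠 := by
    rw [← Cardinal.power_def, mk_N]
    have hLQ : #(List ℚ) = ℵ₀ := Cardinal.mk_eq_aleph0 _
    rw [hLQ]
    exact Cardinal.continuum_power_aleph0
  have h2 : #(ℕ → N × N) = 𝔠 := by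
    rw [← Cardinal.power_def, Cardinal.mk_prod]
    simp only [Cardinal.lift_id, mk_N, Cardinal.mk_nat, Cardinal.continuum_mul_self]
    exact Cardinal.continuum_power_aleph0
  rw [Cardinal.mk_prod, Cardinal.mk_prod]
  simp only [Cardinal.lift_id]
  rw [h1, h2]
  have h3 : #Bool * 𝔠 = 𝔠 := by
    rw [Cardinal.mk_bool]
    exact Cardinal.nat_mul_continuum (n := 2) (by norm_num)
  rw [h3, Cardinal.continuum_mul_self]

noncomputable def gapPt (D : ℕ → N × N) (x : N) : N := by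
  classical
  exact if h : (Gap D x).Nonempty then h.some else 0

theorem gapPt_eq {D : ℕ → N × N} {x y : N} (hy : y ∈ Gap D x) (hu : ∀ y' ∈ Gap D x, y' = y) :
    gapPt D x = y := by
  classical
  have h : (Gap D x).Nonempty := ⟨y, hy⟩
  unfold gapPt
  rw [dif_pos h]
  exact hu _ h.some_mem

/-- choosing `x` as a point of the base kills the partial map `D`. -/
def Kill (D : ℕ → N × N) (X A : Set N) (x : N) : Prop :=
  ∀ y ∈ Gap D x, (∀ y' ∈ Gap D x, y' = y) ∧ ¬ Cp (insert x X) A y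

/-- the result of the transfinite construction -/
structure Constr where
  ι : Type
  [lo : LinearOrder ι]
  hι : ∀ t : ι, #(Set.Iio t) < 𝔠
  e : ι ≃ Task
  x : ι → N
  a : ι → N
  xT : ∀ t, x t ∈ T
  xne : ∀ s t, s < t → ¬ Eqf (x t) (x s)
  xforb : ∀ s t, s < t → x t ∉ Forb (gapPt (e s).2.2 (x s))
  ane : ∀ s t, s < t → a t ≠ a s
  aforb : ∀ s t, s ≤ t → a t ∉ Forb (gapPt (e s).2.2 (x s))
  kill : ∀ t, (∃ z ∈ T, (∀ s < t, ¬ Eqf z (x s)) ∧
      (∀ s < t, z ∉ Forb (gapPt (e s).2.2 (x s))) ∧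
      Kill (e t).2.2 (x '' Set.Iio t) (a '' Set.Iio t) z) →
    Kill (e t).2.2 (x '' Set.Iio t) (a '' Set.Iio t) (x t)

attribute [instance] Constr.lo

theorem exists_constr : Nonempty Constr := by
  classical
  let ι : Type := (𝔠 : Cardinal.{0}).ord.ToType
  have hι : ∀ t : ι, #(Set.Iio t) < 𝔠 := fun t => by
    have h1 := Cardinal.mk_Iio_lt t (by simp [ι])
    have h2 : #ι = 𝔠 := by simp [ι]
    rw [h2] at h1
    exact h1
  have hcard : #ι = #Task := by
    rw [mk_Task]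
    simp [ι]
  obtain ⟨e⟩ := Cardinal.eq.1 hcard
  let Spec : ∀ t : ι, (Set.Iio t → N × N) → N × N → Prop := fun t prev p =>
    p.1 ∈ T ∧ (∀ s, ¬ Eqf p.1 (prev s).1) ∧
    (∀ s, p.1 ∉ Forb (gapPt (e s.1).2.2 (prev s).1)) ∧
    (∀ s, p.2 ≠ (prev s).2) ∧
    (∀ s, p.2 ∉ Forb (gapPt (e s.1).2.2 (prev s).1)) ∧
    p.2 ∉ Forb (gapPt (e t).2.2 p.1) ∧
    ((∃ z ∈ T, (∀ s, ¬ Eqf z (prev s).1) ∧
      (∀ s, z ∉ Forb (gapPt (e s.1).2.2 (prev s).1)) ∧
      Kill (e t).2.2 (Set.range (fun s => (prev s).1)) (Set.range (fun s => (prev s).2)) z) →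
      Kill (e t).2.2 (Set.range (fun s => (prev s).1)) (Set.range (fun s => (prev s).2)) p.1)
  have hSpec : ∀ t prev, ∃ p, Spec t prev p := by
    intro t prev
    have hFb : #(⋃ s : Set.Iio t, Forb (gapPt (e s.1).2.2 (prev s).1)) < 𝔠 :=
      mk_iUnion_lt (hι t) _ (fun s => Forb_countable _)
    have hEq : #(⋃ s : Set.Iio t, {r | Eqf (prev s).1 r}) < 𝔠 :=
      mk_iUnion_lt (hι t) _ (fun s => countable_eqf _)
    have hA : #(⋃ s : Set.Iio t, {(prev s).2}) < 𝔠 :=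
      mk_iUnion_lt (hι t) _ (fun s => Set.countable_singleton _)
    have hx : ∃ x ∈ T, (∀ s, ¬ Eqf x (prev s).1) ∧
        (∀ s : Set.Iio t, x ∉ Forb (gapPt (e s.1).2.2 (prev s).1)) ∧
        ((∃ z ∈ T, (∀ s, ¬ Eqf z (prev s).1) ∧
          (∀ s : Set.Iio t, z ∉ Forb (gapPt (e s.1).2.2 (prev s).1)) ∧
          Kill (e t).2.2 (Set.range (fun s => (prev s).1)) (Set.range (fun s => (prev s).2)) z) →
          Kill (e t).2.2 (Set.range (fun s => (prev s).1)) (Set.range (fun s => (prev s).2)) x) := by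
      by_cases hz : ∃ z ∈ T, (∀ s, ¬ Eqf z (prev s).1) ∧
          (∀ s : Set.Iio t, z ∉ Forb (gapPt (e s.1).2.2 (prev s).1)) ∧
          Kill (e t).2.2 (Set.range (fun s => (prev s).1)) (Set.range (fun s => (prev s).2)) z
      · obtain ⟨z, h1, h2, h3, h4⟩ := hz
        exact ⟨z, h1, h2, h3, fun _ => h4⟩
      · have hS : #((⋃ s : Set.Iio t, Forb (gapPt (e s.1).2.2 (prev s).1)) ∪
            (⋃ s : Set.Iio t, {r | Eqf (prev s).1 r}) : Set N) < 𝔠 :=
          (Cardinal.mk_union_le _ _).trans_lt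
            (Cardinal.add_lt_of_lt Cardinal.aleph0_le_continuum hFb hEq)
        obtain ⟨x, _, hxT, hxS⟩ := dense_good hS 0 0
        refine ⟨x, hxT, fun s hs => hxS ?_, fun s hs => hxS ?_, fun h => absurd h hz⟩
        · exact Or.inr (Set.mem_iUnion.2 ⟨s, hs.symm⟩)
        · exact Or.inl (Set.mem_iUnion.2 ⟨s, hs⟩)
    obtain ⟨x, hx1, hx2, hx3, hx4⟩ := hx
    have hS2 : #(((⋃ s : Set.Iio t, Forb (gapPt (e s.1).2.2 (prev s).1)) ∪
        (⋃ s : Set.Iio t, {(prev s).2})) ∪ Forb (gapPt (e t).2.2 x) : Set N) < 𝔠 := by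
      refine (Cardinal.mk_union_le _ _).trans_lt
        (Cardinal.add_lt_of_lt Cardinal.aleph0_le_continuum ?_ ?_)
      · exact (Cardinal.mk_union_le _ _).trans_lt
            (Cardinal.add_lt_of_lt Cardinal.aleph0_le_continuum hFb hA)
      · exact (Forb_countable _).le_aleph0.trans_lt Cardinal.aleph0_lt_continuum
    obtain ⟨a, _, _, haS⟩ := dense_good hS2 0 0
    refine ⟨(x, a), hx1, hx2, hx3, fun s hs => haS ?_, fun s hs => haS ?_, fun hs => haS ?_, hx4⟩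
    · exact Or.inl (Or.inr (Set.mem_iUnion.2 ⟨s, hs⟩))
    · exact Or.inl (Or.inl (Set.mem_iUnion.2 ⟨s, hs⟩))
    · exact Or.inr hs
  obtain ⟨v, hv⟩ := exists_rec Spec hSpec
  have him1 : ∀ t, (fun t => (v t).1) '' Set.Iio t = Set.range (fun s : Set.Iio t => (v s.1).1) := by
    intro t; ext y; simp
  have him2 : ∀ t, (fun t => (v t).2) '' Set.Iio t = Set.range (fun s : Set.Iio t => (v s.1).2) := by
    intro t; ext y; simp
  refine ⟨⟨ι, hι, e, fun t => (v t).1, fun t => (v t).2, fun t => (hv t).1,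
    fun s t hst => (hv t).2.1 ⟨s, hst⟩, fun s t hst => (hv t).2.2.1 ⟨s, hst⟩,
    fun s t hst => (hv t).2.2.2.1 ⟨s, hst⟩, fun s t hst => ?_, fun t => ?_⟩⟩
  · rcases hst.lt_or_eq with h | h
    · exact (hv t).2.2.2.2.1 ⟨s, h⟩
    · subst h
      exact (hv s).2.2.2.2.2.1
  · rw [him1, him2]
    rintro ⟨z, h1, h2, h3, h4⟩
    exact (hv t).2.2.2.2.2.2 ⟨z, h1, fun s => h2 s.1 s.2, fun s => h3 s.1 s.2, h4⟩

end Pool.Agent.Lib.MP_8b3477_lc
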