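import Pool.Agent.Lib.MP_8b3477_lc.Basic

set_option autoImplicit false

namespace Pool.Agent.Lib.MP_8b3477_lc

open Cardinal Set

/-- the set of possible values at `x` of a monotone extension of the partial map given by `D`. -/
def Gap (D : ℕ → N × N) (x : N) : Set N :=
  {y | ∀ n, (LT' (D n).1 x → LT' (D n).2 y) ∧ (LT' x (D n).1 → LT' y (D n).2)}

/-- the domain of the countable partial map `D` is dense -/
def DenseD (D : ℕ → N × N) : Prop := ∀ x k, ∃ n, Ag k x (D n).1

theorem exists_between' {x x' : N} (h : LT' x x') : ∃ z k, ∀ d, Ag k z d → LT' x d ∧ LT' d x' := by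
  obtain ⟨i, hi, hlt⟩ := h
  obtain ⟨q, hq1, hq2⟩ := exists_between hlt
  refine ⟨fun j => if j = i then q else x j, i + 1, fun d hd => ⟨⟨i, fun j hj => ?_, ?_⟩,
    ⟨i, fun j hj => ?_, ?_⟩⟩⟩
  · have := hd j (by omega)
    dsimp only at this
    rw [if_neg (by omega)] at this
    exact this
  · have := hd i (by omega)
    dsimp only at this
    rw [if_pos rfl] at this
    rw [← this]; exact hq1
  · have := hd j (by omega)
    dsimp only at this
    rw [if_neg (by omega)] at this
    rw [← this]; exact hi j hj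
  · have := hd i (by omega)
    dsimp only at this
    rw [if_pos rfl] at this
    rw [← this]; exact hq2

theorem gap_lt {D : ℕ → N × N} (hD : DenseD D) {x x' y y' : N} (h : LT' x x')
    (hy : y ∈ Gap D x) (hy' : y' ∈ Gap D x') : LT' y y' := by
  obtain ⟨z, k, hz⟩ := exists_between' h
  obtain ⟨n, hn⟩ := hD z k
  obtain ⟨h1, h2⟩ := hz _ hn
  exact ((hy n).2 h1).trans ((hy' n).1 h2)

theorem gap_convex {D : ℕ → N × N} {x y z y' : N} (hy : y ∈ Gap D x) (hy' : y' ∈ Gap D x)
    (h1 : LT' y z) (h2 : LT' z y') : z ∈ Gap D x :=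
  fun n => ⟨fun h => ((hy n).1 h).trans h1, fun h => h2.trans ((hy' n).2 h)⟩

/-- the points where the gap is not a single point -/
def Exc (D : ℕ → N × N) : Set N := {x | ∃ y ∈ Gap D x, ∃ y' ∈ Gap D x, LT' y y'}

theorem exists_list_between {y y' : N} (h : LT' y y') :
    ∃ l : List ℚ, LT' y (fun j => l.getD j 0) ∧ LT' (fun j => l.getD j 0) y' := by
  obtain ⟨z, k, hz⟩ := exists_between' h
  refine ⟨pre z k, hz _ ?_⟩
  intro i hi
  exact (pre_getD z k i 0 hi).symm

theorem Exc_countable {D : ℕ → N × N} (hD : DenseD D) : (Exc D).Countable := by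
  classical
  have h1 : ∀ x : Exc D, ∃ l : List ℚ, (fun j => l.getD j 0) ∈ Gap D x.1 := by
    rintro ⟨x, y, hy, y', hy', hlt⟩
    obtain ⟨l, hl1, hl2⟩ := exists_list_between hlt
    exact ⟨l, gap_convex hy hy' hl1 hl2⟩
  choose e he using h1
  have hinj : Function.Injective e := by
    intro x x' hxx
    by_contra hne
    have hne' : x.1 ≠ x'.1 := fun h => hne (Subtype.ext h)
    rcases LT'.trichotomy x.1 x'.1 with h | h | h
    · have := gap_lt hD h (he x) (he x')
      rw [hxx] at this
      exact LT'.irrefl _ this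
    · exact hne' h
    · have := gap_lt hD h (he x') (he x)
      rw [hxx] at this
      exact LT'.irrefl _ this
  rw [← Set.countable_coe_iff]
  exact hinj.countable

theorem gap_cont {D : ℕ → N × N} {x y : N} (hy : y ∈ Gap D x) (hu : ∀ y' ∈ Gap D x, y' = y)
    (j : ℕ) : ∃ k, ∀ x', Ag k x x' → ∀ y' ∈ Gap D x', Ag j y y' := by
  classical
  let ym : N := fun i => if i = j then y j - 1 else y i
  let yp : N := fun i => if i = j then y j + 1 else y i
  have hym : LT' ym y := ⟨j, fun i hi => by simp [ym, hi.ne], by simp [ym]⟩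
  have hyp : LT' y yp := ⟨j, fun i hi => by simp [yp, hi.ne], by simp [yp]⟩
  have hagm : Ag j y ym := fun i hi => by simp [ym, hi.ne]
  have hagp : Ag j y yp := fun i hi => by simp [yp, hi.ne]
  have h1 : ym ∉ Gap D x := fun h => by
    have := hu _ h
    rw [this] at hym
    exact LT'.irrefl _ hym
  have h2 : yp ∉ Gap D x := fun h => by
    have := hu _ h
    rw [this] at hyp
    exact LT'.irrefl _ hyp
  have h3 : ∃ n, LT' (D n).1 x ∧ ¬ LT' (D n).2 ym := by
    by_contra hcon
    push Not at hcon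
    exact h1 (fun n => ⟨fun h => hcon n h, fun h => hym.trans ((hy n).2 h)⟩)
  have h4 : ∃ n, LT' x (D n).1 ∧ ¬ LT' yp (D n).2 := by
    by_contra hcon
    push Not at hcon
    exact h2 (fun n => ⟨fun h => ((hy n).1 h).trans hyp, fun h => hcon n h⟩)
  obtain ⟨n, hn1, hn2⟩ := h3
  obtain ⟨n', hn1', hn2'⟩ := h4
  obtain ⟨k, hk⟩ := lt_of_ag_right hn1
  obtain ⟨k', hk'⟩ := lt_of_ag_left hn1'
  refine ⟨max k k', fun x' hx' y' hy' => ?_⟩
  have g1 : LT' (D n).2 y' := (hy' n).1 (hk x' (hx'.mono (le_max_left _ _)))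
  have g2 : LT' y' (D n').2 := (hy' n').2 (hk' x' (hx'.mono (le_max_right _ _)))
  have g3 : LT' ym y' := by
    rcases LT'.trichotomy (D n).2 ym with h | h | h
    · exact absurd h hn2
    · rw [← h]; exact g1
    · exact h.trans g1
  have g4 : LT' y' yp := by
    rcases LT'.trichotomy yp (D n').2 with h | h | h
    · exact absurd h hn2'
    · rw [h]; exact g2
    · exact g2.trans h
  exact ag_of_between g3 g4 hagm hagp

end Pool.Agent.Lib.MP_8b3477_lc
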