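import Pool.Agent.Lib.MP_8b3477_lc.Basic

set_option autoImplicit false

namespace Pool.Agent.Lib.MP_8b3477_lc

open Cardinal Set

theorem scheme (x0 : N) (k0 : ℕ) (Req : ℕ → Set N)
    (hReq : ∀ j x k, k0 ≤ k → Ag k0 x0 x → ∃ x' k', k ≤ k' ∧ Ag k x x' ∧
      ∀ y, Ag k' x' y → y ∈ Req j)
    (Sp : N → N → Prop)
    (hSp : ∀ x k, k0 ≤ k → Ag k0 x0 x → ∃ x1 k1 x2 k2, k ≤ k1 ∧ k ≤ k2 ∧ Ag k x x1 ∧ Ag k x x2 ∧
      ∀ y z, Ag k1 x1 y → Ag k2 x2 z → Sp y z) :
    ∃ f : (ℕ → Bool) → N, (∀ η, Ag k0 x0 (f η)) ∧ (∀ η j, f η ∈ Req j) ∧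
      (∀ η ν, η ≠ ν → Sp (f η) (f ν) ∨ Sp (f ν) (f η)) := by
  classical
  -- the extension step
  have step : ∀ (j : ℕ) (u : {p : N × ℕ // k0 ≤ p.2 ∧ Ag k0 x0 p.1}),
      ∃ v : Bool → {p : N × ℕ // k0 ≤ p.2 ∧ Ag k0 x0 p.1},
        (∀ b, u.1.2 + 1 ≤ (v b).1.2 ∧ Ag u.1.2 u.1.1 (v b).1.1 ∧
          ∀ y, Ag (v b).1.2 (v b).1.1 y → y ∈ Req j) ∧
        (∀ y z, Ag (v false).1.2 (v false).1.1 y → Ag (v true).1.2 (v true).1.1 z → Sp y z) := by
    rintro j ⟨⟨x, k⟩, hk, hx⟩
    obtain ⟨x1, k1, x2, k2, h1, h2, h3, h4, h5⟩ := hSp x k hk hx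
    have hx1 : Ag k0 x0 x1 := hx.trans (h3.mono hk)
    have hx2 : Ag k0 x0 x2 := hx.trans (h4.mono hk)
    obtain ⟨x1', k1', h6, h7, h8⟩ := hReq j x1 k1 (hk.trans h1) hx1
    obtain ⟨x2', k2', h9, h10, h11⟩ := hReq j x2 k2 (hk.trans h2) hx2
    have hk1' : k0 ≤ k1' := hk.trans (h1.trans h6)
    have hk2' : k0 ≤ k2' := hk.trans (h2.trans h9)
    have hx1' : Ag k0 x0 x1' := hx1.trans (h7.mono (hk.trans h1))
    have hx2' : Ag k0 x0 x2' := hx2.trans (h10.mono (hk.trans h2))
    refine ⟨fun b => if b then ⟨(x2', k2' + 1), by dsimp only; omega, hx2'⟩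
      else ⟨(x1', k1' + 1), by dsimp only; omega, hx1'⟩, ?_, ?_⟩
    · intro b
      cases b
      · refine ⟨?_, ?_, ?_⟩
        · simp only [Bool.false_eq_true, if_false]; omega
        · simp only [Bool.false_eq_true, if_false]
          exact h3.trans (h7.mono h1)
        · simp only [Bool.false_eq_true, if_false]
          exact fun y hy => h8 y (hy.mono (Nat.le_succ _))
      · refine ⟨?_, ?_, ?_⟩
        · simp only [if_true]; omega
        · simp only [if_true]
          exact h4.trans (h10.mono h2)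
        · simp only [if_true]
          exact fun y hy => h11 y (hy.mono (Nat.le_succ _))
    · intro y z hy hz
      simp only [Bool.false_eq_true, if_false] at hy
      simp only [if_true] at hz
      exact h5 y z ((hy.mono (Nat.le_succ _)).symm.trans (Ag.refl _ _) |>.symm.mono h6 |>
        (h7.trans ·)) ((hz.mono (Nat.le_succ _)).mono h9 |> (h10.trans ·))
  choose v hv1 hv2 using step
  let s : (ℕ → Bool) → ℕ → {p : N × ℕ // k0 ≤ p.2 ∧ Ag k0 x0 p.1} := fun η n =>
    Nat.rec ⟨(x0, k0), le_refl _, Ag.refl _ _⟩ (fun j u => v j u (η j)) n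
  have hs : ∀ η j, s η (j + 1) = v j (s η j) (η j) := fun η j => rfl
  have hs0 : ∀ η, s η 0 = ⟨(x0, k0), le_refl _, Ag.refl _ _⟩ := fun η => rfl
  have hlen : ∀ η j, (s η j).1.2 + 1 ≤ (s η (j + 1)).1.2 := fun η j => by
    rw [hs]; exact (hv1 j (s η j) (η j)).1
  have hlen' : ∀ η j, j ≤ (s η j).1.2 := fun η j => by
    induction j with
    | zero => exact Nat.zero_le _
    | succ j ih => have := hlen η j; omega
  have hext1 : ∀ η j, Ag (s η j).1.2 (s η j).1.1 (s η (j + 1)).1.1 := fun η j => by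
    rw [hs]; exact (hv1 j (s η j) (η j)).2.1
  have hext : ∀ η j l, (s η j).1.2 ≤ (s η (j + l)).1.2 ∧
      Ag (s η j).1.2 (s η j).1.1 (s η (j + l)).1.1 := fun η j l => by
    induction l with
    | zero => exact ⟨le_refl _, Ag.refl _ _⟩
    | succ l ih =>
      refine ⟨?_, ?_⟩
      · have := hlen η (j + l)
        have h1 := ih.1
        have h2 : j + (l + 1) = j + l + 1 := by ring
        rw [h2]
        omega
      · have h2 : j + (l + 1) = j + l + 1 := by ring
        rw [h2]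
        exact ih.2.trans ((hext1 η (j + l)).mono ih.1)
  let f : (ℕ → Bool) → N := fun η i => (s η (i + 1)).1.1 i
  have hf : ∀ η j, Ag (s η j).1.2 (s η j).1.1 (f η) := by
    intro η j i hi
    change (s η j).1.1 i = (s η (i + 1)).1.1 i
    rcases le_total j (i + 1) with h | h
    · obtain ⟨l, hl⟩ := Nat.exists_eq_add_of_le h
      rw [hl]
      exact (hext η j l).2 i hi
    · obtain ⟨l, hl⟩ := Nat.exists_eq_add_of_le h
      rw [hl]
      exact ((hext η (i + 1) l).2 i (by have := hlen' η (i + 1); omega)).symm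
  refine ⟨f, fun η => hf η 0, fun η j => ?_, fun η ν hne => ?_⟩
  · refine (hv1 j (s η j) (η j)).2.2 _ ?_
    rw [← hs]
    exact hf η (j + 1)
  · have hex : ∃ j, η j ≠ ν j := by
      by_contra hcon
      push Not at hcon
      exact hne (funext hcon)
    have h1 := Nat.find_spec hex
    have h2 : ∀ m < Nat.find hex, η m = ν m := fun m hm => by
      have := Nat.find_min hex hm
      push Not at this
      exact this
    set j := Nat.find hex with hj
    have h3 : ∀ m ≤ j, s η m = s ν m := by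
      intro m hm
      induction m with
      | zero => rfl
      | succ m ih => rw [hs, hs, ih (by omega), h2 m (by omega)]
    have h4 := hf η (j + 1)
    have h5 := hf ν (j + 1)
    rw [hs] at h4 h5
    rw [← h3 j le_rfl] at h5
    cases hb : η j
    · have hb' : ν j = true := by
        cases hb' : ν j
        · exact absurd (hb.trans hb'.symm) h1
        · rfl
      rw [hb] at h4
      rw [hb'] at h5
      exact Or.inl (hv2 j (s η j) _ _ h4 h5)
    · have hb' : ν j = false := by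
        cases hb' : ν j
        · rfl
        · exact absurd (hb.trans hb'.symm) h1
      rw [hb] at h4
      rw [hb'] at h5
      exact Or.inr (hv2 j (s η j) _ _ h5 h4)

end Pool.Agent.Lib.MP_8b3477_lc
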