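import Pool.Agent.Lib.MP_8b3477_lc.Coding
import Pool.Agent.Lib.MP_8b3477_lc.Gap
import Pool.Agent.Lib.MP_8b3477_lc.Scheme

set_option autoImplicit false

namespace Pool.Agent.Lib.MP_8b3477_lc

open Cardinal Set

theorem mk_cantor : #(ℕ → Bool) = 𝔠 := by simp

theorem exists_not_mem_small {f : (ℕ → Bool) → N} (hf : Function.Injective f) {S : Set N}
    (hS : #S < 𝔠) : ∃ η, f η ∉ S := by
  by_contra hcon
  push Not at hcon
  have h1 : #(ℕ → Bool) ≤ #S :=
    Cardinal.mk_le_of_injective (f := fun η => (⟨f η, hcon η⟩ : S)) (fun a b h =>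
      hf (congrArg Subtype.val h))
  rw [mk_cantor] at h1
  exact absurd h1 (not_le.2 hS)

/-- a node can be extended so as to have a zero at a late place. -/
theorem ext_zero (x : N) (k j : ℕ) : ∃ x' k', k ≤ k' ∧ Ag k x x' ∧
    ∀ y, Ag k' x' y → ∃ m ≥ j, y m = 0 := by
  refine ⟨fun i => if i = max k j then 0 else x i, max k j + 1, by omega, fun i hi => ?_,
    fun y hy => ⟨max k j, le_max_right _ _, ?_⟩⟩
  · dsimp only
    rw [if_neg (by omega)]
  · have := hy (max k j) (Nat.lt_succ_self _)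
    dsimp only at this
    rw [if_pos rfl] at this
    exact this.symm

/-- any node can be split. -/
theorem ext_split (x : N) (k : ℕ) : ∃ x1 k1 x2 k2, k ≤ k1 ∧ k ≤ k2 ∧ Ag k x x1 ∧ Ag k x x2 ∧
      ∀ y z, Ag k1 x1 y → Ag k2 x2 z → y ≠ z := by
  refine ⟨fun i => if i = k then 0 else x i, k + 1, fun i => if i = k then 1 else x i, k + 1,
    by omega, by omega, fun i hi => ?_, fun i hi => ?_, fun y z hy hz hyz => ?_⟩
  · dsimp only
    rw [if_neg (by omega)]
  · dsimp only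
    rw [if_neg (by omega)]
  · have h1 := hy k (Nat.lt_succ_self _)
    have h2 := hz k (Nat.lt_succ_self _)
    dsimp only at h1 h2
    rw [if_pos rfl] at h1 h2
    rw [← hyz, ← h1] at h2
    norm_num at h2

/-- the good points are dense. -/
theorem dense_good {Sml : Set N} (hs : #Sml < 𝔠) (x : N) (k : ℕ) :
    ∃ x', Ag k x x' ∧ x' ∈ T ∧ x' ∉ Sml := by
  obtain ⟨f, hf1, hf2, hf3⟩ := scheme x k (fun j => {y | ∃ m ≥ j, y m = 0})
    (fun j x k _ _ => ext_zero x k j) (fun y z => y ≠ z) (fun x k _ _ => ext_split x k)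
  have hinj : Function.Injective f := by
    intro η ν h
    by_contra hne
    rcases hf3 η ν hne with h1 | h1
    · exact h1 h
    · exact h1 h.symm
  obtain ⟨η, hη⟩ := exists_not_mem_small hinj hs
  exact ⟨f η, hf1 η, fun j => hf2 η j, hη⟩

/-- number of words with codes in `A` -/
theorem card_words {A : Set N} (hA : #A < 𝔠) :
    #{w : List (List ℚ × N) | ∀ p ∈ w, p.2 ∈ A} < 𝔠 := by
  classical
  let f : List (List ℚ × A) → List (List ℚ × N) := fun w => w.map (fun q => (q.1, (q.2 : N)))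
  have h1 : {w : List (List ℚ × N) | ∀ p ∈ w, p.2 ∈ A} ⊆ Set.range f := by
    intro w hw
    induction w with
    | nil => exact ⟨[], rfl⟩
    | cons p w ih =>
      obtain ⟨w', hw'⟩ := ih (fun p hp => hw p (List.mem_cons_of_mem _ hp))
      refine ⟨(p.1, ⟨p.2, hw p List.mem_cons_self⟩) :: w', ?_⟩
      simp only [f, List.map_cons] at hw' ⊢
      rw [hw']
  have hLQ : #(List ℚ) = ℵ₀ := Cardinal.mk_eq_aleph0 _
  calc #{w : List (List ℚ × N) | ∀ p ∈ w, p.2 ∈ A} ≤ #(Set.range f) :=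
        Cardinal.mk_le_mk_of_subset h1
    _ ≤ #(List (List ℚ × A)) := Cardinal.mk_range_le
    _ ≤ max ℵ₀ #(List ℚ × A) := Cardinal.mk_list_le_max _
    _ < 𝔠 := by
      refine max_lt Cardinal.aleph0_lt_continuum ?_
      rw [Cardinal.mk_prod]
      simp only [Cardinal.lift_id, hLQ]
      exact Cardinal.mul_lt_of_lt Cardinal.aleph0_le_continuum Cardinal.aleph0_lt_continuum hA

theorem main_claim (D : ℕ → N × N) (A Sml : Set N) (hA : #A < 𝔠)
    (hs : #Sml < 𝔠) (G : N → N)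
    (hG : ∀ x ∈ T, x ∉ Sml → G x ∈ Gap D x ∧ ∀ y ∈ Gap D x, y = G x)
    (hev : ∀ x ∈ T, x ∉ Sml → ∃ (w : List (List ℚ × N)) (t : List ℚ),
      (∀ p ∈ w, p.2 ∈ A) ∧ G x = ev w t x) :
    ∃ (x0 : N) (k0 : ℕ) (w : List (List ℚ × N)) (t : List ℚ), (∀ p ∈ w, p.2 ∈ A) ∧
      ∀ x ∈ T, x ∉ Sml → Ag k0 x0 x → G x = ev w t x := by
  classical
  -- Step 1 : one type is dense somewhere
  have step1 : ∃ (ss : List (List ℚ)) (t : List ℚ) (x0 : N) (k0 : ℕ), ∀ x k, k0 ≤ k → Ag k0 x0 x →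
      ∃ x', Ag k x x' ∧ x' ∈ T ∧ x' ∉ Sml ∧ ∃ w : List (List ℚ × N), w.map Prod.fst = ss ∧
        G x' = ev w t x' := by
    by_contra hcon
    push Not at hcon
    obtain ⟨e, he⟩ := exists_surjective_nat (List (List ℚ) × List ℚ)
    obtain ⟨f, hf1, hf2, hf3⟩ := scheme 0 0
      (fun j => {y | (∃ m ≥ j, y m = 0) ∧ (y ∈ T → y ∉ Sml →
        ¬ ∃ w : List (List ℚ × N), w.map Prod.fst = (e j).1 ∧ G y = ev w (e j).2 y)})
      (fun j x k _ _ => by
        obtain ⟨x1, k1, h1, h2, h3⟩ := ext_zero x k j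
        obtain ⟨x2, k2, h4, h5, h6⟩ := hcon (e j).1 (e j).2 x1 k1
        refine ⟨x2, k2, h1.trans h4, h2.trans (h5.mono h1), fun y hy => ⟨?_, ?_⟩⟩
        · exact h3 y (h5.trans (hy.mono h4))
        · intro hyT hys
          rintro ⟨w, hw1, hw2⟩
          exact h6 y hy hyT hys w hw1 hw2)
      (fun y z => y ≠ z) (fun x k _ _ => ext_split x k)
    have hinj : Function.Injective f := by
      intro η ν h
      by_contra hne
      rcases hf3 η ν hne with h1 | h1
      · exact h1 h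
      · exact h1 h.symm
    obtain ⟨η, hη⟩ := exists_not_mem_small hinj hs
    have hT : f η ∈ T := fun j => (hf2 η j).1
    obtain ⟨w, t, hw, hwt⟩ := hev (f η) hT hη
    obtain ⟨j, hj⟩ := he (w.map Prod.fst, t)
    refine (hf2 η j).2 hT hη ⟨w, ?_, ?_⟩
    · rw [hj]
    · rw [hj]; exact hwt
  obtain ⟨ss, t, x0, k0, hdense⟩ := step1
  -- Step 2 : closedness
  have step2 : ∀ x ∈ T, x ∉ Sml → Ag k0 x0 x → G x = ev (dec ss (G x)) t x := by
    intro x hxT hxs hx0
    refine eq_of_ag (fun k => ?_)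
    obtain ⟨j, hj⟩ := ev_dec_cont ss t k
    obtain ⟨hG1, hG2⟩ := hG x hxT hxs
    obtain ⟨k1, hk1⟩ := gap_cont hG1 hG2 (max j k)
    obtain ⟨x', h1, h2, h3, w, h4, h5⟩ := hdense x (max k0 (max k1 j)) (le_max_left _ _) hx0
    have h6 : Ag (max j k) (G x) (G x') :=
      hk1 x' (h1.mono (by omega)) _ (hG x' h2 h3).1
    have h7 : dec ss (G x') = w := by rw [h5, ← h4, dec_ev]
    have h8 := hj (G x) (G x') x x' (h6.mono (le_max_left _ _)) (h1.mono (by omega))
    rw [h7, ← h5] at h8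
    exact (h6.mono (le_max_right _ _)).trans h8.symm
  -- the codes are in `A`
  have step2' : ∀ x ∈ T, x ∉ Sml → Ag k0 x0 x → ∀ p ∈ dec ss (G x), p.2 ∈ A := by
    intro x hxT hxs hx0
    obtain ⟨w, t', hw, hwt⟩ := hev x hxT hxs
    have h1 := step2 x hxT hxs hx0
    have h2 : Eqf (ev (dec ss (G x)) t x) (ev w t' x) := by
      rw [← h1, ← hwt]; exact Eqf.refl _
    have h3 := (ev_eqf_T hxT hxT h2).1
    intro p hp
    have h4 : p.2 ∈ (dec ss (G x)).map Prod.snd := List.mem_map_of_mem hp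
    rw [h3] at h4
    obtain ⟨q, hq, hqp⟩ := List.mem_map.1 h4
    rw [← hqp]
    exact hw q hq
  -- Step 3 : the codes are locally constant somewhere
  have step3 : ∃ (x1 : N) (k1 : ℕ), k0 ≤ k1 ∧ Ag k0 x0 x1 ∧ ∀ y ∈ T, y ∉ Sml → ∀ z ∈ T,
      z ∉ Sml → Ag k1 x1 y → Ag k1 x1 z → dec ss (G y) = dec ss (G z) := by
    by_contra hcon
    push Not at hcon
    obtain ⟨f, hf1, hf2, hf3⟩ := scheme x0 k0 (fun j => {y | ∃ m ≥ j, y m = 0})
      (fun j x k _ _ => ext_zero x k j)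
      (fun y z => y ≠ z ∧ (y ∈ T → y ∉ Sml → z ∈ T → z ∉ Sml →
        dec ss (G y) ≠ dec ss (G z))) (fun x k hk hx => by
        obtain ⟨y, hyT, hys, z, hzT, hzs, hxy, hxz, hne⟩ := hcon x k hk hx
        obtain ⟨j, hj⟩ := dec_sep ss _ _ hne
        obtain ⟨ky, hky⟩ := gap_cont (hG y hyT hys).1 (hG y hyT hys).2 j
        obtain ⟨kz, hkz⟩ := gap_cont (hG z hzT hzs).1 (hG z hzT hzs).2 j
        have hyz : ∃ i, y i ≠ z i := by
          by_contra hcon2
          push Not at hcon2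
          exact hne (by rw [funext hcon2])
        obtain ⟨i, hi⟩ := hyz
        refine ⟨y, max (max k ky) (i + 1), z, max (max k kz) (i + 1), by omega, by omega,
          hxy, hxz, fun y' z' hy' hz' => ⟨?_, ?_⟩⟩
        · intro h
          apply hi
          rw [hy' i (by omega), hz' i (by omega), h]
        · intro hyT' hys' hzT' hzs'
          refine hj _ _ ?_ ?_
          · exact hky y' (hy'.mono (by omega)) _ (hG y' hyT' hys').1
          · exact hkz z' (hz'.mono (by omega)) _ (hG z' hzT' hzs').1)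
    have hinj : Function.Injective f := by
      intro η ν h
      by_contra hne
      rcases hf3 η ν hne with h1 | h1
      · exact h1.1 h
      · exact h1.1 h.symm
    have hT : ∀ η, f η ∈ T := fun η j => hf2 η j
    -- counting
    have h1 : #{η : ℕ → Bool | f η ∈ Sml} ≤ #Sml :=
      Cardinal.mk_le_of_injective (f := fun η : {η : ℕ → Bool | f η ∈ Sml} =>
        (⟨f η.1, η.2⟩ : Sml)) (fun a b h => Subtype.ext (hinj (congrArg Subtype.val h)))
    have h2 : #{η : ℕ → Bool | f η ∉ Sml} ≤ #{w : List (List ℚ × N) | ∀ p ∈ w, p.2 ∈ A} :=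
      Cardinal.mk_le_of_injective (f := fun η : {η : ℕ → Bool | f η ∉ Sml} =>
        (⟨dec ss (G (f η.1)), step2' _ (hT _) η.2 (hf1 _)⟩ :
          {w : List (List ℚ × N) | ∀ p ∈ w, p.2 ∈ A})) (fun a b h => by
          by_contra hne
          have hne' : a.1 ≠ b.1 := fun h => hne (Subtype.ext h)
          have h3 : dec ss (G (f a.1)) = dec ss (G (f b.1)) := congrArg Subtype.val h
          rcases hf3 a.1 b.1 hne' with h4 | h4
          · exact h4.2 (hT _) a.2 (hT _) b.2 h3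
          · exact h4.2 (hT _) b.2 (hT _) a.2 h3.symm)
    have h3 : 𝔠 ≤ #{η : ℕ → Bool | f η ∈ Sml} + #{η : ℕ → Bool | f η ∉ Sml} := by
      rw [← mk_cantor]
      have := Cardinal.mk_sum_compl {η : ℕ → Bool | f η ∈ Sml}
      rw [← this]
      rfl
    have h4 : #{η : ℕ → Bool | f η ∈ Sml} + #{η : ℕ → Bool | f η ∉ Sml} < 𝔠 :=
      Cardinal.add_lt_of_lt Cardinal.aleph0_le_continuum (h1.trans_lt hs)
        (h2.trans_lt (card_words hA))
    exact absurd h3 (not_le.2 h4)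
  obtain ⟨x1, k1, hk1, hx1, hconst⟩ := step3
  obtain ⟨xa, ha1, ha2, ha3⟩ := dense_good hs x1 k1
  refine ⟨x1, k1, dec ss (G xa), t, step2' xa ha2 ha3 (hx1.trans (ha1.mono hk1)), ?_⟩
  intro x hxT hxs hx
  have h1 := step2 x hxT hxs (hx1.trans (hx.mono hk1))
  rw [hconst xa ha2 ha3 x hxT hxs ha1 hx]
  exact h1

end Pool.Agent.Lib.MP_8b3477_lc
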