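import Pool.Agent.Lib.MP_8b3477_lc.Basic

set_option autoImplicit false

namespace Pool.Agent.Lib.MP_8b3477_lc

open Cardinal Set

theorem exists_phi : ∃ φ : List ℚ → List ℚ → ℚ, (∀ a b, 0 < φ a b) ∧
    (∀ a b c d, φ a b = φ c d → a = c ∧ b = d) ∧ (∀ a b c d, a < c → φ a b < φ c d) := by
  have : Nontrivial (Set.Ioi (0:ℚ)) := ⟨⟨⟨1, by norm_num⟩, ⟨2, by norm_num⟩, by
    intro h
    have := congrArg Subtype.val h
    norm_num at this⟩⟩
  have : Countable (List ℚ ×ₗ List ℚ) := inferInstanceAs (Countable (List ℚ × List ℚ))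
  obtain ⟨e⟩ := Order.embedding_from_countable_to_dense (α := List ℚ ×ₗ List ℚ)
    (β := Set.Ioi (0:ℚ))
  refine ⟨fun a b => (e (toLex (a, b))).1, fun a b => (e (toLex (a, b))).2, ?_, ?_⟩
  · intro a b c d h
    have h1 : e (toLex (a, b)) = e (toLex (c, d)) := Subtype.ext h
    have h2 := e.injective h1
    have h3 : (a, b) = (c, d) := toLex.injective h2
    exact ⟨(Prod.mk.inj h3).1, (Prod.mk.inj h3).2⟩
  · intro a b c d h
    have : toLex (a, b) < toLex (c, d) := by
      rw [Prod.Lex.toLex_lt_toLex]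
      exact Or.inl h
    exact e.strictMono this

noncomputable def phi : List ℚ → List ℚ → ℚ := exists_phi.choose

theorem phi_pos (a b : List ℚ) : 0 < phi a b := exists_phi.choose_spec.1 a b

theorem phi_inj {a b c d : List ℚ} (h : phi a b = phi c d) : a = c ∧ b = d :=
  exists_phi.choose_spec.2.1 a b c d h

theorem phi_lt {a b c d : List ℚ} (h : a < c) : phi a b < phi c d :=
  exists_phi.choose_spec.2.2 a b c d h

/-- left inverse of `phi` -/
noncomputable def ip (q : ℚ) : List ℚ × List ℚ := by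
  classical
  exact if h : ∃ p : List ℚ × List ℚ, phi p.1 p.2 = q then h.choose else ([], [])

theorem ip_phi (a b : List ℚ) : ip (phi a b) = (a, b) := by
  classical
  have h : ∃ p : List ℚ × List ℚ, phi p.1 p.2 = phi a b := ⟨(a, b), rfl⟩
  have h1 : ip (phi a b) = h.choose := by
    unfold ip
    rw [dif_pos h]
  rw [h1]
  have h2 := phi_inj h.choose_spec
  exact Prod.ext h2.1 h2.2

/-- the coding maps -/
noncomputable def F (a x : N) : N := fun k => phi (pre x (k + 1)) (pre a (k + 1))

theorem F_lt (a : N) {x y : N} (h : LT' x y) : LT' (F a x) (F a y) := by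
  obtain ⟨i, hi, hlt⟩ := h
  refine ⟨i, fun j hj => ?_, ?_⟩
  · have : pre x (j + 1) = pre y (j + 1) := pre_eq_iff.2 (fun l hl => hi l (by omega))
    simp only [F, this]
  · exact phi_lt (pre_lt hi hlt (Nat.lt_succ_self i))

theorem F_ag (a : N) {x y : N} {k : ℕ} (h : Ag k x y) : Ag k (F a x) (F a y) := by
  intro i hi
  have : pre x (i + 1) = pre y (i + 1) := pre_eq_iff.2 (fun l hl => h l (by omega))
  simp only [F, this]

theorem F_ag2 {a b x y : N} {k : ℕ} (h : Ag k x y) (h' : Ag k a b) : Ag k (F a x) (F b y) := by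
  intro i hi
  have e1 : pre x (i + 1) = pre y (i + 1) := pre_eq_iff.2 (fun l hl => h l (by omega))
  have e2 : pre a (i + 1) = pre b (i + 1) := pre_eq_iff.2 (fun l hl => h' l (by omega))
  simp only [F, e1, e2]

/-- decoding of the predecessor -/
noncomputable def P (m : ℕ) (y : N) : N := fun i => (ip (y (max i m))).1.getD i 0

/-- decoding of the code -/
noncomputable def Q (m : ℕ) (y : N) : N := fun i => (ip (y (max i m))).2.getD i 0

theorem P_spec {m : ℕ} {y a z : N} (h : ∀ k ≥ m, y k = F a z k) : P m y = z := by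
  funext i
  simp only [P]
  rw [h _ (le_max_right _ _)]
  simp only [F]
  rw [ip_phi]
  exact pre_getD z _ i 0 (Nat.lt_succ_of_le (le_max_left _ _))

theorem Q_spec {m : ℕ} {y a z : N} (h : ∀ k ≥ m, y k = F a z k) : Q m y = a := by
  funext i
  simp only [Q]
  rw [h _ (le_max_right _ _)]
  simp only [F]
  rw [ip_phi]
  exact pre_getD a _ i 0 (Nat.lt_succ_of_le (le_max_left _ _))

theorem P_ag {m j : ℕ} {y y' : N} (h : Ag (max j (m + 1)) y y') : Ag j (P m y) (P m y') := by
  intro i hi
  simp only [P]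
  rw [h (max i m) (by omega)]

theorem Q_ag {m j : ℕ} {y y' : N} (h : Ag (max j (m + 1)) y y') : Ag j (Q m y) (Q m y') := by
  intro i hi
  simp only [Q]
  rw [h (max i m) (by omega)]

theorem F_eqf {a b x y : N} (h : Eqf (F a x) (F b y)) : a = b ∧ x = y := by
  obtain ⟨m, hm⟩ := h
  have h1 := P_spec (m := m) (y := F a x) (a := b) (z := y) hm
  have h2 := P_spec (m := m) (y := F a x) (a := a) (z := x) (fun _ _ => rfl)
  have h3 := Q_spec (m := m) (y := F a x) (a := b) (z := y) hm
  have h4 := Q_spec (m := m) (y := F a x) (a := a) (z := x) (fun _ _ => rfl)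
  exact ⟨h4.symm.trans h3, h2.symm.trans h1⟩

/-- points with infinitely many zeros -/
def T : Set N := {x | ∀ m, ∃ k ≥ m, x k = 0}

theorem T_eqf {x y : N} (h : Eqf x y) (hx : x ∈ T) : y ∈ T := by
  obtain ⟨m, hm⟩ := h
  intro l
  obtain ⟨k, hk, hk0⟩ := hx (max l m)
  exact ⟨k, by omega, by rw [← hm k (by omega)]; exact hk0⟩

theorem T_not_F {x a z : N} (hx : x ∈ T) : ¬ Eqf x (F a z) := by
  rintro ⟨m, hm⟩
  obtain ⟨k, hk, hk0⟩ := hx m
  have := hm k hk
  rw [hk0] at this
  have h2 := phi_pos (pre z (k + 1)) (pre a (k + 1))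
  simp only [F] at this
  rw [← this] at h2
  exact lt_irrefl _ h2

/-- evaluation of words -/
noncomputable def ev : List (List ℚ × N) → List ℚ → N → N
  | [], t, x => splice t x
  | (p :: w), t, x => splice p.1 (F p.2 (ev w t x))

theorem splice_ag {t : List ℚ} {x y : N} {k : ℕ} (h : Ag k x y) :
    Ag k (splice t x) (splice t y) := by
  intro i hi
  simp only [splice]
  rw [h i hi]

theorem ev_ag (w : List (List ℚ × N)) (t : List ℚ) {x y : N} {k : ℕ} (h : Ag k x y) :
    Ag k (ev w t x) (ev w t y) := by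
  induction w with
  | nil => exact splice_ag h
  | cons p w ih => exact splice_ag (F_ag _ ih)

/-- decoding -/
noncomputable def dec : List (List ℚ) → N → List (List ℚ × N)
  | [], _ => []
  | (s :: ss), y => (s, Q s.length y) :: dec ss (P s.length y)

theorem dec_map_fst (ss : List (List ℚ)) (y : N) : (dec ss y).map Prod.fst = ss := by
  induction ss generalizing y with
  | nil => rfl
  | cons s ss ih => simp [dec, ih]

theorem dec_ev (w : List (List ℚ × N)) (t : List ℚ) (x : N) :
    dec (w.map Prod.fst) (ev w t x) = w := by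
  induction w with
  | nil => rfl
  | cons p w ih =>
    obtain ⟨s, a⟩ := p
    have h : ∀ k ≥ s.length, splice s (F a (ev w t x)) k = F a (ev w t x) k :=
      fun k hk => splice_ge _ _ _ hk
    simp only [List.map_cons, dec, ev]
    rw [Q_spec h, P_spec h, ih]

theorem ev_dec_cont (ss : List (List ℚ)) (t : List ℚ) (k : ℕ) : ∃ j, ∀ y y' x x' : N,
    Ag j y y' → Ag j x x' → Ag k (ev (dec ss y) t x) (ev (dec ss y') t x') := by
  induction ss generalizing k with
  | nil => exact ⟨k, fun y y' x x' _ h => splice_ag h⟩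
  | cons s ss ih =>
    obtain ⟨j, hj⟩ := ih k
    refine ⟨max (max j k) (s.length + 1), fun y y' x x' h h' => ?_⟩
    simp only [dec, ev]
    refine splice_ag (F_ag2 (hj _ _ _ _ (P_ag (h.mono ?_)) (h'.mono ?_)) (Q_ag (h.mono ?_)))
    · omega
    · omega
    · omega

theorem dec_sep (ss : List (List ℚ)) (y y' : N) (h : dec ss y ≠ dec ss y') :
    ∃ j, ∀ z z' : N, Ag j y z → Ag j y' z' → dec ss z ≠ dec ss z' := by
  induction ss generalizing y y' with
  | nil => exact absurd rfl h
  | cons s ss ih =>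
    by_cases hQ : Q s.length y = Q s.length y'
    · have h2 : dec ss (P s.length y) ≠ dec ss (P s.length y') := by
        intro h3
        apply h
        simp only [dec, hQ, h3]
      obtain ⟨j, hj⟩ := ih _ _ h2
      refine ⟨max j (s.length + 1), fun z z' hz hz' heq => ?_⟩
      simp only [dec, List.cons.injEq] at heq
      exact hj _ _ (P_ag hz) (P_ag hz') heq.2
    · have : ∃ i, Q s.length y i ≠ Q s.length y' i := by
        by_contra hcon
        push Not at hcon
        exact hQ (funext hcon)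
      obtain ⟨i, hi⟩ := this
      refine ⟨max (i + 1) (s.length + 1), fun z z' hz hz' heq => ?_⟩
      simp only [dec, List.cons.injEq, Prod.mk.injEq, true_and] at heq
      have e1 := Q_ag (m := s.length) (j := i + 1) hz i (Nat.lt_succ_self i)
      have e2 := Q_ag (m := s.length) (j := i + 1) hz' i (Nat.lt_succ_self i)
      rw [e1, e2, heq.1] at hi
      exact hi rfl

theorem ev_eqf_T {w w' : List (List ℚ × N)} {t t' : List ℚ} {x x' : N} (hx : x ∈ T)
    (hx' : x' ∈ T) (h : Eqf (ev w t x) (ev w' t' x')) :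
    w.map Prod.snd = w'.map Prod.snd ∧ Eqf x x' := by
  induction w generalizing w' with
  | nil =>
    cases w' with
    | nil =>
      refine ⟨rfl, ?_⟩
      exact ((splice_eqf t x).symm.trans h).trans (splice_eqf t' x')
    | cons p w' =>
      exfalso
      have h1 : Eqf x (F p.2 (ev w' t' x')) :=
        ((splice_eqf t x).symm.trans h).trans (splice_eqf p.1 _)
      exact T_not_F hx h1
  | cons p w ih =>
    cases w' with
    | nil =>
      exfalso
      have h1 : Eqf x' (F p.2 (ev w t x)) :=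
        ((splice_eqf t' x').symm.trans h.symm).trans (splice_eqf p.1 _)
      exact T_not_F hx' h1
    | cons p' w' =>
      have h1 : Eqf (F p.2 (ev w t x)) (F p'.2 (ev w' t' x')) :=
        ((splice_eqf p.1 _).symm.trans h).trans (splice_eqf p'.1 _)
      obtain ⟨e1, e2⟩ := F_eqf h1
      obtain ⟨e3, e4⟩ := ih (w' := w') (by rw [e2]; exact Eqf.refl _)
      refine ⟨?_, e4⟩
      simp only [List.map_cons, e1, e3]

/-! ### predecessors -/

def Comp (y : N) : Prop := ∃ a z, Eqf y (F a z)

noncomputable def pred (y : N) : N := by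
  classical
  exact if h : Comp y then h.choose_spec.choose else 0

noncomputable def cd (y : N) : N := by
  classical
  exact if h : Comp y then h.choose else 0

theorem pred_cd_spec {y a z : N} (h : Eqf y (F a z)) : pred y = z ∧ cd y = a := by
  classical
  have hc : Comp y := ⟨a, z, h⟩
  have h1 : pred y = hc.choose_spec.choose := by
    unfold pred; rw [dif_pos hc]
  have h2 : cd y = hc.choose := by
    unfold cd; rw [dif_pos hc]
  have h3 : Eqf y (F hc.choose hc.choose_spec.choose) := hc.choose_spec.choose_spec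
  obtain ⟨e1, e2⟩ := F_eqf (h3.symm.trans h)
  rw [h1, h2]
  exact ⟨e2, e1⟩

theorem Comp.eqf {y : N} (h : Comp y) : Eqf y (F (cd y) (pred y)) := by
  obtain ⟨a, z, h⟩ := h
  obtain ⟨e1, e2⟩ := pred_cd_spec h
  rw [e1, e2]
  exact h

theorem Comp.congr {y y' : N} (h : Eqf y y') (hc : Comp y) : Comp y' := by
  obtain ⟨a, z, hz⟩ := hc
  exact ⟨a, z, h.symm.trans hz⟩

theorem pred_congr {y y' : N} (h : Eqf y y') : pred y = pred y' ∧ cd y = cd y' := by
  classical
  by_cases hc : Comp y
  · obtain ⟨e1, e2⟩ := pred_cd_spec (h.symm.trans hc.eqf)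
    exact ⟨e1.symm, e2.symm⟩
  · have hc' : ¬ Comp y' := fun h' => hc (h'.congr h.symm)
    unfold pred cd
    rw [dif_neg hc, dif_neg hc', dif_neg hc, dif_neg hc']
    exact ⟨rfl, rfl⟩

/-- the liberal closure of `R` under the codes from `A` -/
def Cp (R A : Set N) (y : N) : Prop :=
  ∃ n, (∃ r ∈ R, Eqf (pred^[n] y) r) ∧ ∀ i < n, cd (pred^[i] y) ∈ A ∧ Comp (pred^[i] y)

theorem Cp.base {R A : Set N} {r : N} (h : r ∈ R) : Cp R A r :=
  ⟨0, ⟨r, h, Eqf.refl r⟩, fun i hi => absurd hi (Nat.not_lt_zero i)⟩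

theorem Cp.fin {R A : Set N} {y y' : N} (h : Cp R A y) (he : Eqf y y') : Cp R A y' := by
  obtain ⟨n, ⟨r, hr, hn⟩, hcd⟩ := h
  have key : ∀ i, 0 < i → pred^[i] y' = pred^[i] y := by
    intro i hi
    obtain ⟨j, rfl⟩ : ∃ j, i = j + 1 := ⟨i - 1, by omega⟩
    rw [Function.iterate_succ_apply, Function.iterate_succ_apply, (pred_congr he).1]
  refine ⟨n, ⟨r, hr, ?_⟩, fun i hi => ?_⟩
  · rcases Nat.eq_zero_or_pos n with h0 | h0
    · subst h0; exact he.symm.trans hn
    · rw [key n h0]; exact hn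
  · rcases Nat.eq_zero_or_pos i with h0 | h0
    · subst h0
      obtain ⟨h1, h2⟩ := hcd 0 hi
      refine ⟨?_, h2.congr he⟩
      change cd y' ∈ A
      rw [← (pred_congr he).2]; exact h1
    · rw [key i h0]; exact hcd i hi

theorem Cp.step {R A : Set N} {x a : N} (h : Cp R A x) (ha : a ∈ A) : Cp R A (F a x) := by
  obtain ⟨n, ⟨r, hr, hn⟩, hcd⟩ := h
  obtain ⟨e1, e2⟩ := pred_cd_spec (Eqf.refl (F a x))
  refine ⟨n + 1, ⟨r, hr, ?_⟩, fun i hi => ?_⟩
  · rw [Function.iterate_succ_apply, e1]; exact hn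
  · rcases Nat.eq_zero_or_pos i with h0 | h0
    · subst h0
      exact ⟨by change cd (F a x) ∈ A; rw [e2]; exact ha, ⟨a, x, Eqf.refl _⟩⟩
    · obtain ⟨j, rfl⟩ : ∃ j, i = j + 1 := ⟨i - 1, by omega⟩
      rw [Function.iterate_succ_apply, e1]
      exact hcd j (by omega)

theorem eqf_splice {y z : N} (h : Eqf y z) : ∃ s : List ℚ, y = splice s z := by
  obtain ⟨m, hm⟩ := h
  refine ⟨pre y m, ?_⟩
  funext k
  by_cases hk : k < m
  · simp only [splice]
    rw [pre_getD y m k _ hk]
  · rw [splice_ge _ _ _ (by rw [pre_length]; omega)]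
    exact hm k (by omega)

theorem Cp.exists_ev {R A : Set N} {y : N} (h : Cp R A y) :
    ∃ r ∈ R, ∃ (w : List (List ℚ × N)) (t : List ℚ), (∀ p ∈ w, p.2 ∈ A) ∧ y = ev w t r := by
  obtain ⟨n, ⟨r, hr, hn⟩, hcd⟩ := h
  refine ⟨r, hr, ?_⟩
  induction n generalizing y with
  | zero =>
    obtain ⟨t, ht⟩ := eqf_splice hn
    exact ⟨[], t, by simp, ht⟩
  | succ n ih =>
    obtain ⟨w, t, hw, he⟩ := ih (y := pred y)
      (hcd := fun i hi => by
        have := hcd (i + 1) (by omega)
        rwa [Function.iterate_succ_apply] at this)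
      (hn := by rwa [Function.iterate_succ_apply] at hn)
    obtain ⟨h1, h2⟩ := hcd 0 (Nat.succ_pos n)
    obtain ⟨s, hs⟩ := eqf_splice h2.eqf
    refine ⟨(s, cd y) :: w, t, ?_, ?_⟩
    · intro p hp
      rcases List.mem_cons.1 hp with h3 | h3
      · rw [h3]; exact h1
      · exact hw p h3
    · simp only [ev]
      rw [← he]
      exact hs

theorem Cp.mono {R R' A A' : Set N} {y : N} (hR : R ⊆ R') (hA : A ⊆ A') (h : Cp R A y) :
    Cp R' A' y := by
  obtain ⟨n, ⟨r, hr, hn⟩, hcd⟩ := h
  exact ⟨n, ⟨r, hR hr, hn⟩, fun i hi => ⟨hA (hcd i hi).1, (hcd i hi).2⟩⟩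

theorem card_Cp (R A : Set N) : #{y | Cp R A y} ≤ max ℵ₀ (max #R #A) := by
  classical
  let f : (R × List ℚ) × List (List ℚ × A) → N := fun p =>
    ev (p.2.map (fun q => (q.1, (q.2 : N)))) p.1.2 p.1.1
  have h1 : {y | Cp R A y} ⊆ Set.range f := by
    intro y hy
    obtain ⟨r, hr, w, t, hw, he⟩ := Cp.exists_ev hy
    have : ∃ w' : List (List ℚ × A), w'.map (fun q => (q.1, (q.2 : N))) = w := by
      clear he
      induction w with
      | nil => exact ⟨[], rfl⟩
      | cons p w ih =>
        obtain ⟨w', hw'⟩ := ih (fun p hp => hw p (List.mem_cons_of_mem _ hp))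
        refine ⟨(p.1, ⟨p.2, hw p List.mem_cons_self⟩) :: w', ?_⟩
        simp [hw']
    obtain ⟨w', hw'⟩ := this
    refine ⟨((⟨r, hr⟩, t), w'), ?_⟩
    simp only [f]
    rw [hw', he]
  have hLQ : #(List ℚ) = ℵ₀ := Cardinal.mk_eq_aleph0 _
  calc #{y | Cp R A y} ≤ #(Set.range f) := Cardinal.mk_le_mk_of_subset h1
    _ ≤ #((R × List ℚ) × List (List ℚ × A)) := Cardinal.mk_range_le
    _ ≤ max ℵ₀ (max #R #A) := by
      rw [Cardinal.mk_prod, Cardinal.mk_prod]
      simp only [Cardinal.lift_id]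
      have h2 : #(List (List ℚ × A)) ≤ max ℵ₀ (max #R #A) := by
        refine (Cardinal.mk_list_le_max _).trans ?_
        rw [Cardinal.mk_prod]
        simp only [Cardinal.lift_id, hLQ]
        refine max_le (le_max_left _ _) ?_
        refine (Cardinal.mul_le_max _ _).trans ?_
        refine max_le (max_le (le_max_left _ _) ?_) (le_max_left _ _)
        exact (le_max_right _ _).trans (le_max_right _ _)
      have h3 : #R * #(List ℚ) ≤ max ℵ₀ (max #R #A) := by
        rw [hLQ]
        refine (Cardinal.mul_le_max _ _).trans ?_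
        refine max_le (max_le ?_ (le_max_left _ _)) (le_max_left _ _)
        exact (le_max_left _ _).trans (le_max_right _ _)
      refine (mul_le_mul' h3 h2).trans ?_
      rw [Cardinal.mul_eq_self (le_max_left _ _)]

/-- what may not be used later, in order to keep `y` out of the closure -/
def Forb (y : N) : Set N := {r | ∃ n, Eqf (pred^[n] y) r} ∪ Set.range (fun n => cd (pred^[n] y))

theorem countable_eqf (y : N) : {r | Eqf y r}.Countable := by
  have : {r | Eqf y r} ⊆ Set.range (fun s : List ℚ => splice s y) := by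
    intro r hr
    obtain ⟨s, hs⟩ := eqf_splice (Eqf.symm hr)
    exact ⟨s, hs.symm⟩
  exact (Set.countable_range _).mono this

theorem Forb_countable (y : N) : (Forb y).Countable := by
  refine Set.Countable.union ?_ (Set.countable_range _)
  have : {r | ∃ n, Eqf (pred^[n] y) r} = ⋃ n : ℕ, {r | Eqf (pred^[n] y) r} := by
    ext r; simp
  rw [this]
  exact Set.countable_iUnion (fun n => countable_eqf _)

theorem Cp.forb {R A : Set N} {y : N} (h : Cp R A y) : Cp (R ∩ Forb y) (A ∩ Forb y) y := by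
  obtain ⟨n, ⟨r, hr, hn⟩, hcd⟩ := h
  exact ⟨n, ⟨r, ⟨hr, Or.inl ⟨n, hn⟩⟩, hn⟩, fun i hi => ⟨⟨(hcd i hi).1, Or.inr ⟨i, rfl⟩⟩, (hcd i hi).2⟩⟩

end Pool.Agent.Lib.MP_8b3477_lc
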