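import Pool.Agent.Lib.MP_8b3477_lc.Sets

set_option autoImplicit false

namespace Pool.Agent.Lib.MP_8b3477_lc

open Cardinal Set

section

variable (K : Constr)

/-- the two chains -/
abbrev Ch (b : Bool) : Type := {x : Lex (ℕ → ℚ) // ClK K b (ofLex x)}

theorem Ch_lt {b : Bool} {x y : Ch K b} : x < y ↔ LT' (ofLex x.1) (ofLex y.1) := Iff.rfl

theorem Ch_double (b : Bool) : Emb (Lex (Ch K b ⊕ Ch K b)) (Ch K b) := by
  obtain ⟨h0, h01, h02⟩ := homog (fun _ => 0) 1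
  obtain ⟨h1, h11, h12⟩ := homog (fun _ => 1) 1
  let f0 : Ch K b → Ch K b := fun x => ⟨toLex (h0 (ofLex x.1)), ClK_fin K x.2 (h02 _).1⟩
  let f1 : Ch K b → Ch K b := fun x => ⟨toLex (h1 (ofLex x.1)), ClK_fin K x.2 (h12 _).1⟩
  refine ⟨fun p => Sum.elim f0 f1 (ofLex p), ?_⟩
  intro p q hpq
  have hpq' : Sum.Lex (· < ·) (· < ·) (ofLex p) (ofLex q) := hpq
  show Sum.elim f0 f1 (ofLex p) < Sum.elim f0 f1 (ofLex q)
  rcases hp : ofLex p with x | x <;> rcases hq : ofLex q with y | y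
  · rw [hp, hq, Sum.lex_inl_inl] at hpq'
    exact h01 _ _ hpq'
  · refine ⟨0, fun j hj => absurd hj (Nat.not_lt_zero j), ?_⟩
    have e1 := (h02 (ofLex x.1)).2 0 Nat.one_pos
    have e2 := (h12 (ofLex y.1)).2 0 Nat.one_pos
    change h0 (ofLex x.1) 0 < h1 (ofLex y.1) 0
    rw [← e1, ← e2]
    norm_num
  · rw [hp, hq] at hpq'
    exact absurd hpq' Sum.lex_inr_inl
  · rw [hp, hq, Sum.lex_inr_inr] at hpq'
    exact h11 _ _ hpq'

theorem Ch_not_emb (b : Bool) : ¬ Emb (Ch K b) (Ch K (!b)) := by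
  rintro ⟨g, hg⟩
  refine no_map K b (fun x => ⟨ofLex (g ⟨toLex x.1, x.2⟩).1, (g ⟨toLex x.1, x.2⟩).2⟩) ?_
  intro x y hxy
  exact hg (show (⟨toLex x.1, x.2⟩ : Ch K b) < ⟨toLex y.1, y.2⟩ from hxy)

theorem Ch_small (b : Bool) (s : Set (Ch K b)) (hs : ¬ Emb (Ch K b) s) :
    Emb s (Ch K (!b)) := by
  classical
  have h1 : ∀ u : List ℚ, ∃ x : Ch K b, pre (ofLex x.1) u.length = u ∧ x ∉ s := by
    intro u
    by_contra hcon
    push Not at hcon
    apply hs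
    obtain ⟨h, h1, h2⟩ := homog (fun i => u.getD i 0) u.length
    have h3 : ∀ x : Ch K b, pre (h (ofLex x.1)) u.length = u := by
      intro x
      refine List.ext_getElem (pre_length _ _) (fun i hi hi' => ?_)
      rw [pre_getElem]
      rw [← (h2 (ofLex x.1)).2 i hi']
      simp only [List.getD_eq_getElem?_getD, List.getElem?_eq_getElem hi', Option.getD_some]
    refine ⟨fun x => ⟨⟨toLex (h (ofLex x.1)), ClK_fin K x.2 (h2 _).1⟩, hcon _ (h3 x)⟩, ?_⟩
    intro x y hxy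
    exact h1 _ _ hxy
  choose l hl1 hl2 using h1
  refine ⟨fun x => ⟨toLex (F (codeK K (fun u => ofLex (l u).1)) (ofLex x.1.1)), ?_⟩, ?_⟩
  · refine Cl.lim b _ _ (fun u => hl1 u) (fun u => (l u).2) (fun u hu => ?_) x.1.2
    have : x.1 = l u := Subtype.ext hu
    exact hl2 u (this ▸ x.2)
  · intro x y hxy
    exact F_lt _ hxy

end

/-- existence of twins -/
theorem exists_twins : ∃ (B C : Type) (_ : LinearOrder B) (_ : LinearOrder C),
    Emb (Lex (B ⊕ B)) B ∧ Emb (Lex (C ⊕ C)) C ∧ ¬ Emb B C ∧ ¬ Emb C B ∧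
    (∀ s : Set B, ¬ Emb B s → Emb s C) ∧ (∀ s : Set C, ¬ Emb C s → Emb s B) := by
  obtain ⟨K⟩ := exists_constr
  exact ⟨Ch K true, Ch K false, inferInstance, inferInstance, Ch_double K true, Ch_double K false,
    Ch_not_emb K true, Ch_not_emb K false, Ch_small K true, Ch_small K false⟩

end Pool.Agent.Lib.MP_8b3477_lc
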