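import Pool.Agent.Lib.MP_8b3477_lc.Build

set_option autoImplicit false

namespace Pool.Agent.Lib.MP_8b3477_lc

open Cardinal Set

/-- choice of a point in each basic cylinder -/
def Dn (l : List ℚ → N) : Prop := ∀ s, pre (l s) s.length = s

/-- The two sets. -/
inductive Cl (base : Bool → Set N) (code : (List ℚ → N) → N) : Bool → N → Prop
  | base (b : Bool) (x : N) : x ∈ base b → Cl base code b x
  | fin (b : Bool) (x y : N) : Cl base code b x → Eqf x y → Cl base code b y
  | lim (b : Bool) (l : List ℚ → N) (x : N) : Dn l → (∀ s, Cl base code b (l s)) →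
      (∀ s, x ≠ l s) → Cl base code b x → Cl base code (!b) (F (code l) x)

section

variable {base : Bool → Set N} {code : (List ℚ → N) → N}

theorem Cl.inv (hT : ∀ b, base b ⊆ T) {b : Bool} {y : N} (h : Cl base code b y) :
    ∀ {a z : N}, Eqf y (F a z) → ∃ l, a = code l ∧ Dn l ∧ (∀ s, Cl base code (!b) (l s)) ∧
      (∀ s, z ≠ l s) ∧ Cl base code (!b) z := by
  induction h with
  | base b x hx => intro a z he; exact absurd he (T_not_F (hT b hx))
  | fin b x y _ hxy ih => intro a z he; exact ih (hxy.trans he)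
  | lim b l x hl hls hx hxb _ _ =>
    intro a z he
    obtain ⟨e1, e2⟩ := F_eqf he
    subst e1
    subst e2
    rw [Bool.not_not]
    exact ⟨l, rfl, hl, hls, hx, hxb⟩

theorem Cl.baseInv {b : Bool} {y : N} (h : Cl base code b y) :
    y ∈ T → ∃ r ∈ base b, Eqf y r := by
  induction h with
  | base b x hx => intro _; exact ⟨x, hx, Eqf.refl x⟩
  | fin b x y _ hxy ih =>
    intro hy
    obtain ⟨r, hr, he⟩ := ih (T_eqf hxy.symm hy)
    exact ⟨r, hr, hxy.symm.trans he⟩
  | lim b l x hl hls hx hxb _ _ =>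
    intro hy
    exact absurd (Eqf.refl _) (T_not_F hy)

theorem Cl.disj (hT : ∀ b, base b ⊆ T)
    (hd : ∀ b, ∀ x ∈ base b, ∀ y ∈ base (!b), ¬ Eqf x y) {b : Bool} {y : N}
    (h : Cl base code b y) : ¬ Cl base code (!b) y := by
  induction h with
  | base b x hx =>
    intro h'
    obtain ⟨r, hr, he⟩ := h'.baseInv (hT b hx)
    exact hd b x hx r hr he
  | fin b x y _ hxy ih =>
    intro h'
    exact ih (Cl.fin _ _ _ h' hxy.symm)
  | lim b l x hl hls hx hxb _ ih =>
    intro h'
    obtain ⟨_, _, _, _, _, h2⟩ := h'.inv hT (Eqf.refl _)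
    rw [Bool.not_not] at h2
    exact ih h2

theorem Cl.cp {b : Bool} {y : N} (h : Cl base code b y) :
    Cp (⋃ b, base b) (Set.range code) y := by
  induction h with
  | base b x hx => exact Cp.base (Set.mem_iUnion.2 ⟨b, hx⟩)
  | fin b x y _ hxy ih => exact ih.fin hxy
  | lim b l x hl hls hx hxb _ ih => exact ih.step ⟨l, rfl⟩

/-- analysis of membership of the value of a nonempty word -/
theorem Cl.inv_ev (hT : ∀ b, base b ⊆ T) (p : List ℚ × N) (w : List (List ℚ × N)) (t : List ℚ)
    (b : Bool) : ∃ (b' : Bool) (a : N), ∀ x, Cl base code b (ev (p :: w) t x) → ∃ l, a = code l ∧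
      Dn l ∧ (∀ s, Cl base code b' (l s)) ∧ (∀ s, splice t x ≠ l s) ∧ Cl base code b' x := by
  induction w generalizing p b with
  | nil =>
    refine ⟨!b, p.2, fun x hx => ?_⟩
    simp only [ev] at hx
    obtain ⟨l, h1, h2, h3, h4, h5⟩ := hx.inv hT (splice_eqf _ _)
    exact ⟨l, h1, h2, h3, h4, Cl.fin _ _ _ h5 (splice_eqf t x)⟩
  | cons q w ih =>
    obtain ⟨b', a, h⟩ := ih q (!b)
    refine ⟨b', a, fun x hx => ?_⟩
    have hx' : Cl base code b (splice p.1 (F p.2 (ev (q :: w) t x))) := hx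
    obtain ⟨l, h1, h2, h3, h4, h5⟩ := hx'.inv hT (splice_eqf _ _)
    exact h x h5

/-- a word that maps a dense part of one of the sets to the other one: contradiction. -/
theorem word_contradiction (hT : ∀ b, base b ⊆ T)
    (hd : ∀ b, ∀ x ∈ base b, ∀ y ∈ base (!b), ¬ Eqf x y) (hc : Function.Injective code)
    (b : Bool) (hne : ∃ x, Cl base code b x) (w : List (List ℚ × N)) (t : List ℚ) (x0 : N) (k0 : ℕ)
    (h : ∀ x, Cl base code b x → Ag k0 x0 x → Cl base code (!b) (ev w t x)) : False := by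
  classical
  -- a point of the set in the cylinder
  obtain ⟨r, hr⟩ := hne
  have hx : ∃ x, Cl base code b x ∧ Ag k0 x0 x := by
    refine ⟨fun i => if i < k0 then x0 i else r i, Cl.fin _ r _ hr ⟨k0, fun k hk => ?_⟩,
      fun i hi => ?_⟩
    · dsimp only
      rw [if_neg (by omega)]
    · dsimp only
      rw [if_pos hi]
  obtain ⟨x, hxb, hx0⟩ := hx
  cases w with
  | nil =>
    have h1 := h x hxb hx0
    exact hxb.disj hT hd (Cl.fin _ _ _ h1 (splice_eqf t x))
  | cons p w =>
    obtain ⟨b', a, hinv⟩ := Cl.inv_ev (code := code) hT p w t (!b)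
    obtain ⟨l, h1, h2, h3, _, h5⟩ := hinv x (h x hxb hx0)
    have hbb : b' = b := by
      by_contra hne
      have : b' = !b := by
        cases b <;> cases b' <;> simp_all
      rw [this] at h5
      exact hxb.disj hT hd h5
    subst hbb
    -- the point of the dense set
    set k := max k0 t.length with hk
    set s := pre (splice t x) k with hs
    have hslen : s.length = k := pre_length _ _
    have hz : Ag k (l s) (splice t x) := by
      rw [← pre_eq_iff]
      have := h2 s
      rw [hslen] at this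
      exact this
    let x' : N := fun i => if i < k then x i else l s i
    have hx'1 : Eqf (l s) x' := ⟨k, fun i hi => by
      simp only [x']; rw [if_neg (by omega)]⟩
    have hx'b : Cl base code b' x' := Cl.fin _ _ _ (h3 s) hx'1
    have hx'0 : Ag k0 x0 x' := fun i hi => by
      simp only [x']; rw [if_pos (by omega)]; exact hx0 i hi
    have hsp : splice t x' = l s := by
      funext i
      by_cases hi : i < t.length
      · rw [splice_lt _ _ _ hi, hz i (by omega), splice_lt _ _ _ hi]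
      · rw [splice_ge _ _ _ (by omega)]
        by_cases hik : i < k
        · rw [hz i hik, splice_ge _ _ _ (by omega)]
          simp only [x']; rw [if_pos hik]
        · simp only [x']; rw [if_neg hik]
    obtain ⟨l', h1', _, _, h4', _⟩ := hinv x' (h x' hx'b hx'0)
    have hll : l' = l := hc (h1'.symm.trans h1)
    rw [hll] at h4'
    exact h4' s hsp

end

/-- homogeneity -/
theorem homog (x0 : N) (k0 : ℕ) : ∃ h : N → N, (∀ x y, LT' x y → LT' (h x) (h y)) ∧
    ∀ x, Eqf x (h x) ∧ Ag k0 x0 (h x) := by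
  classical
  obtain ⟨e⟩ := Order.embedding_from_countable_to_dense (α := List ℚ) (β := ℚ)
  refine ⟨fun x i => if i < k0 then x0 i else if i = k0 then e (pre x (k0 + 1)) else x i,
    fun x y hxy => ?_, fun x => ⟨⟨k0 + 1, fun k hk => ?_⟩, fun i hi => ?_⟩⟩
  · obtain ⟨i, hi, hlt⟩ := hxy
    by_cases hik : i ≤ k0
    · refine ⟨k0, fun j hj => ?_, ?_⟩
      · dsimp only
        rw [if_pos hj, if_pos hj]
      · dsimp only
        rw [if_neg (by omega), if_pos rfl, if_neg (by omega), if_pos rfl]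
        exact e.strictMono (pre_lt hi hlt (by omega))
    · refine ⟨i, fun j hj => ?_, ?_⟩
      · have : pre x (k0 + 1) = pre y (k0 + 1) := pre_eq_iff.2 (fun l hl => hi l (by omega))
        dsimp only
        rw [this, hi j hj]
      · dsimp only
        rw [if_neg (by omega), if_neg (by omega), if_neg (by omega), if_neg (by omega)]
        exact hlt
  · dsimp only
    rw [if_neg (by omega), if_neg (by omega)]
  · dsimp only
    rw [if_pos hi]

/-! ### the actual sets -/

section

variable (K : Constr)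

/-- base sets -/
def baseK (b : Bool) : Set N := {x | ∃ t, (K.e t).2.1 = b ∧ x = K.x t}

/-- codes -/
noncomputable def codeK (l : List ℚ → N) : N := K.a (K.e.symm (l, (true, fun _ => (0, 0))))

theorem baseK_T (b : Bool) : baseK K b ⊆ T := by
  rintro x ⟨t, _, rfl⟩
  exact K.xT t

theorem K_x_eqf {s t : K.ι} (h : Eqf (K.x s) (K.x t)) : s = t := by
  rcases lt_trichotomy s t with h1 | h1 | h1
  · exact absurd h.symm (K.xne s t h1)
  · exact h1
  · exact absurd h (K.xne t s h1)

theorem K_a_inj {s t : K.ι} (h : K.a s = K.a t) : s = t := by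
  rcases lt_trichotomy s t with h1 | h1 | h1
  · exact absurd h.symm (K.ane s t h1)
  · exact h1
  · exact absurd h (K.ane t s h1)

theorem baseK_disj (b : Bool) : ∀ x ∈ baseK K b, ∀ y ∈ baseK K (!b), ¬ Eqf x y := by
  rintro x ⟨s, hs, rfl⟩ y ⟨t, ht, rfl⟩ h
  have := K_x_eqf K h
  subst this
  rw [hs] at ht
  cases b <;> simp at ht

theorem codeK_inj : Function.Injective (codeK K) := by
  intro l l' h
  have h1 := K_a_inj K h
  have h2 := K.e.symm.injective h1
  exact (Prod.mk.inj h2).1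

/-- the sets -/
def ClK (b : Bool) (x : N) : Prop := Cl (baseK K) (codeK K) b x

theorem ClK_nonempty (b : Bool) : ∃ x, ClK K b x := by
  let t := K.e.symm (fun _ => 0, (b, fun _ => (0, 0)))
  refine ⟨K.x t, Cl.base _ _ ⟨t, ?_, rfl⟩⟩
  simp [t]

theorem ClK_fin {b : Bool} {x y : N} (h : ClK K b x) (he : Eqf x y) : ClK K b y :=
  Cl.fin _ _ _ h he

theorem ClK_dense (b : Bool) (x0 : N) (k0 : ℕ) : ∃ x, ClK K b x ∧ Ag k0 x0 x := by
  obtain ⟨r, hr⟩ := ClK_nonempty K b
  obtain ⟨h, _, h2⟩ := homog x0 k0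
  exact ⟨h r, ClK_fin K hr (h2 r).1, (h2 r).2⟩

/-- there is no increasing map from one of the sets to the other one -/
theorem no_map (b : Bool) (g : {x // ClK K b x} → {x // ClK K (!b) x})
    (hg : ∀ x y, LT' x.1 y.1 → LT' (g x).1 (g y).1) : False := by
  classical
  -- a countable dense subset
  have hd1 : ∃ d : ℕ → {x // ClK K b x}, ∀ x k, ∃ n, Ag k x (d n).1 := by
    obtain ⟨e, he⟩ := exists_surjective_nat (List ℚ)
    choose c hc using fun s : List ℚ => ClK_dense K b (fun i => s.getD i 0) s.length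
    refine ⟨fun n => ⟨c (e n), (hc (e n)).1⟩, fun x k => ?_⟩
    obtain ⟨n, hn⟩ := he (pre x k)
    refine ⟨n, fun i hi => ?_⟩
    have h1 := (hc (e n)).2 i (by rw [hn, pre_length]; exact hi)
    dsimp only at h1 ⊢
    rw [← h1, hn]
    exact (pre_getD x k i 0 hi).symm
  obtain ⟨d, hd⟩ := hd1
  let D : ℕ → N × N := fun n => ((d n).1, (g (d n)).1)
  have hD : DenseD D := hd
  have hgap : ∀ x : {x // ClK K b x}, (g x).1 ∈ Gap D x.1 := fun x n =>
    ⟨fun h => hg _ _ h, fun h => hg _ _ h⟩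
  let t : K.ι := K.e.symm (fun _ => 0, (b, D))
  have ht : K.e t = (fun _ => 0, (b, D)) := by simp [t]
  have htD : (K.e t).2.2 = D := by rw [ht]
  have htb : (K.e t).2.1 = b := by rw [ht]
  set X := K.x '' Set.Iio t with hX
  set A := K.a '' Set.Iio t with hA
  have hkill : ¬ Kill D X A (K.x t) := by
    intro hk
    have hxt : ClK K b (K.x t) := Cl.base _ _ ⟨t, htb, rfl⟩
    obtain ⟨h1, h2⟩ := hk _ (hgap ⟨K.x t, hxt⟩)
    have hy : gapPt (K.e t).2.2 (K.x t) = (g ⟨K.x t, hxt⟩).1 := by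
      rw [htD]
      exact gapPt_eq (hgap ⟨K.x t, hxt⟩) h1
    apply h2
    have h3 := (Cl.cp (g ⟨K.x t, hxt⟩).2).forb
    refine Cp.mono ?_ ?_ h3
    · rintro r ⟨hr1, hr2⟩
      obtain ⟨b', t', _, rfl⟩ := Set.mem_iUnion.1 hr1
      rcases lt_trichotomy t' t with h | h | h
      · exact Or.inr ⟨t', h, rfl⟩
      · subst h; exact Or.inl rfl
      · exfalso
        have := K.xforb t t' h
        rw [hy] at this
        exact this hr2
    · rintro a ⟨⟨l, rfl⟩, ha2⟩
      have : K.e.symm (l, (true, fun _ => (0, 0))) < t := by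
        by_contra hcon
        have := K.aforb t _ (not_lt.1 hcon)
        rw [hy] at this
        exact this ha2
      exact ⟨_, this, rfl⟩
  -- hence nothing kills `D`
  have hnk : ∀ z ∈ T, (∀ s < t, ¬ Eqf z (K.x s)) →
      (∀ s < t, z ∉ Forb (gapPt (K.e s).2.2 (K.x s))) → ¬ Kill D X A z := by
    intro z hz1 hz2 hz3 hz4
    have := K.kill t ⟨z, hz1, hz2, hz3, by rw [htD]; exact hz4⟩
    rw [htD] at this
    exact hkill this
  have hXc : #X < 𝔠 := Cardinal.mk_image_le.trans_lt (K.hι t)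
  have hAc : #A < 𝔠 := Cardinal.mk_image_le.trans_lt (K.hι t)
  -- the Sml set
  have hCpc : #{y | Cp X A y} < 𝔠 :=
    (card_Cp X A).trans_lt (max_lt Cardinal.aleph0_lt_continuum (max_lt hXc hAc))
  let S1 : Set N := {x | ∃ y ∈ Gap D x, Cp X A y}
  have hS1 : #S1 < 𝔠 := by
    refine lt_of_le_of_lt ?_ hCpc
    choose y hy1 hy2 using fun x : S1 => x.2
    refine Cardinal.mk_le_of_injective (f := fun x : S1 => (⟨y x, hy2 x⟩ : {y | Cp X A y})) ?_
    intro x x' hxx
    have h1 : y x = y x' := congrArg Subtype.val hxx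
    by_contra hne
    have hne' : x.1 ≠ x'.1 := fun h => hne (Subtype.ext h)
    rcases LT'.trichotomy x.1 x'.1 with h | h | h
    · have := gap_lt hD h (hy1 x) (hy1 x')
      rw [h1] at this
      exact LT'.irrefl _ this
    · exact hne' h
    · have := gap_lt hD h (hy1 x') (hy1 x)
      rw [h1] at this
      exact LT'.irrefl _ this
  let S2 : Set N := ⋃ s : Set.Iio t, {r | Eqf (K.x s.1) r}
  have hS2 : #S2 < 𝔠 := mk_iUnion_lt (K.hι t) _ (fun s => countable_eqf _)
  let S3 : Set N := ⋃ s : Set.Iio t, Forb (gapPt (K.e s.1).2.2 (K.x s.1))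
  have hS3 : #S3 < 𝔠 := mk_iUnion_lt (K.hι t) _ (fun s => Forb_countable _)
  have hS4 : #(Exc D) < 𝔠 :=
    (Exc_countable hD).le_aleph0.trans_lt Cardinal.aleph0_lt_continuum
  let Sml : Set N := (S1 ∪ S2) ∪ (S3 ∪ Exc D)
  have hSml : #Sml < 𝔠 := by
    refine (Cardinal.mk_union_le _ _).trans_lt
      (Cardinal.add_lt_of_lt Cardinal.aleph0_le_continuum ?_ ?_)
    · exact (Cardinal.mk_union_le _ _).trans_lt
        (Cardinal.add_lt_of_lt Cardinal.aleph0_le_continuum hS1 hS2)
    · exact (Cardinal.mk_union_le _ _).trans_lt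
        (Cardinal.add_lt_of_lt Cardinal.aleph0_le_continuum hS3 hS4)
  -- behaviour of good points
  have hgood : ∀ x ∈ T, x ∉ Sml → ∃ y ∈ Gap D x, (∀ y' ∈ Gap D x, y' = y) ∧
      ∃ (w : List (List ℚ × N)) (t : List ℚ), (∀ p ∈ w, p.2 ∈ A) ∧ y = ev w t x := by
    intro x hxT hxs
    have h1 : x ∉ S1 := fun h => hxs (Or.inl (Or.inl h))
    have h2 : x ∉ S2 := fun h => hxs (Or.inl (Or.inr h))
    have h3 : x ∉ S3 := fun h => hxs (Or.inr (Or.inl h))
    have h4 : x ∉ Exc D := fun h => hxs (Or.inr (Or.inr h))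
    have h5 := hnk x hxT (fun s hs he => h2 (Set.mem_iUnion.2 ⟨⟨s, hs⟩, he.symm⟩))
      (fun s hs hf => h3 (Set.mem_iUnion.2 ⟨⟨s, hs⟩, hf⟩))
    have hu : ∀ y ∈ Gap D x, ∀ y' ∈ Gap D x, y' = y := by
      intro y hy y' hy'
      rcases LT'.trichotomy y y' with h | h | h
      · exact absurd ⟨y, hy, y', hy', h⟩ h4
      · exact h.symm
      · exact absurd ⟨y', hy', y, hy, h⟩ h4
    unfold Kill at h5
    push Not at h5
    obtain ⟨y, hy, h6⟩ := h5
    have h7 := h6 (hu y hy)
    refine ⟨y, hy, hu y hy, ?_⟩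
    have h8 : ¬ Cp X A y := fun h => h1 ⟨y, hy, h⟩
    have h9 : Cp {x} A y := by
      obtain ⟨n, ⟨r, hr, hn⟩, hcd⟩ := h7
      rcases hr with hr | hr
      · exact ⟨n, ⟨r, hr, hn⟩, hcd⟩
      · exact absurd ⟨n, ⟨r, hr, hn⟩, hcd⟩ h8
    obtain ⟨r, hr, w, t', hw, he⟩ := h9.exists_ev
    rw [Set.mem_singleton_iff] at hr
    subst hr
    exact ⟨w, t', hw, he⟩
  let G : N → N := fun x => if h : (Gap D x).Nonempty then h.some else 0
  have hG : ∀ x ∈ T, x ∉ Sml → G x ∈ Gap D x ∧ ∀ y ∈ Gap D x, y = G x := by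
    intro x hxT hxs
    obtain ⟨y, hy, hu, _⟩ := hgood x hxT hxs
    have hne : (Gap D x).Nonempty := ⟨y, hy⟩
    have h1 : G x = hne.some := by simp only [G]; rw [dif_pos hne]
    have h2 : G x ∈ Gap D x := by rw [h1]; exact hne.some_mem
    refine ⟨h2, fun y' hy' => ?_⟩
    rw [hu y' hy', hu _ h2]
  have hev : ∀ x ∈ T, x ∉ Sml → ∃ (w : List (List ℚ × N)) (t : List ℚ),
      (∀ p ∈ w, p.2 ∈ A) ∧ G x = ev w t x := by
    intro x hxT hxs
    obtain ⟨y, hy, hu, w, t', hw, he⟩ := hgood x hxT hxs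
    refine ⟨w, t', hw, ?_⟩
    rw [← he]
    exact hu _ (hG x hxT hxs).1
  obtain ⟨x0, k0, w, t', hw, hmain⟩ := main_claim D A Sml hAc hSml G hG hev
  -- the map `g` is the word map on the cylinder
  have hgev : ∀ x : {x // ClK K b x}, Ag k0 x0 x.1 → (g x).1 = ev w t' x.1 := by
    intro x hx
    refine eq_of_ag (fun j => ?_)
    have hk : k0 ≤ max k0 j := le_max_left _ _
    set k := max k0 j with hkdef
    obtain ⟨x1, hx1, hx1T, hx1s⟩ := dense_good hSml
      (fun i => if i = k then x.1 i - 1 else x.1 i) (k + 1)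
    obtain ⟨x2, hx2, hx2T, hx2s⟩ := dense_good hSml
      (fun i => if i = k then x.1 i + 1 else x.1 i) (k + 1)
    have hA1 : Ag k x.1 x1 := fun i hi => by
      have := hx1 i (by omega)
      dsimp only at this
      rw [if_neg (by omega)] at this
      exact this
    have hA2 : Ag k x.1 x2 := fun i hi => by
      have := hx2 i (by omega)
      dsimp only at this
      rw [if_neg (by omega)] at this
      exact this
    have hl1 : LT' x1 x.1 := ⟨k, fun i hi => (hA1 i hi).symm, by
      have := hx1 k (by omega)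
      dsimp only at this
      rw [if_pos rfl] at this
      rw [← this]; linarith⟩
    have hl2 : LT' x.1 x2 := ⟨k, fun i hi => hA2 i hi, by
      have := hx2 k (by omega)
      dsimp only at this
      rw [if_pos rfl] at this
      rw [← this]; linarith⟩
    have hg1 := gap_lt hD hl1 (hG x1 hx1T hx1s).1 (hgap x)
    have hg2 := gap_lt hD hl2 (hgap x) (hG x2 hx2T hx2s).1
    rw [hmain x1 hx1T hx1s (hx.trans (hA1.mono hk))] at hg1
    rw [hmain x2 hx2T hx2s (hx.trans (hA2.mono hk))] at hg2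
    have hjk : j ≤ k := le_max_right _ _
    exact (ag_of_between hg1 hg2 (ev_ag w t' (hA1.mono hjk)) (ev_ag w t' (hA2.mono hjk))).symm
  refine word_contradiction (baseK_T K) (baseK_disj K) (codeK_inj K) b (ClK_nonempty K b) w t' x0 k0
    (fun x hx hx0 => ?_)
  have := hgev ⟨x, hx⟩ hx0
  rw [← this]
  exact (g ⟨x, hx⟩).2

end

end Pool.Agent.Lib.MP_8b3477_lc
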