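import Pool.Agent.Lib.MP_8b3477_lc.Basic

set_option autoImplicit false

namespace Pool.Agent.Lib.MP_8b3477_lc

open Cardinal Set

theorem Emb.trans {X Y Z : Type} [Preorder X] [Preorder Y] [Preorder Z]
    (h : Emb X Y) (h' : Emb Y Z) : Emb X Z := by
  obtain ⟨f, hf⟩ := h
  obtain ⟨g, hg⟩ := h'
  exact ⟨g ∘ f, hg.comp hf⟩

theorem emb_iff {X Y : Type} [LinearOrder X] [LinearOrder Y] :
    Emb X Y ↔ Nonempty (X ↪o Y) := by
  constructor
  · rintro ⟨f, hf⟩
    exact ⟨OrderEmbedding.ofStrictMono f hf⟩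
  · rintro ⟨f⟩
    exact ⟨f, f.strictMono⟩

theorem emb_inl (B C : Type) [LinearOrder B] [LinearOrder C] : Emb B (Lex (B ⊕ C)) :=
  ⟨fun b => toLex (Sum.inl b), fun _ _ h => Sum.Lex.inl_lt_inl_iff.2 h⟩

theorem emb_inr (B C : Type) [LinearOrder B] [LinearOrder C] : Emb C (Lex (B ⊕ C)) :=
  ⟨fun b => toLex (Sum.inr b), fun _ _ h => Sum.Lex.inr_lt_inr_iff.2 h⟩

theorem emb_sum {B C D E : Type} [LinearOrder B] [LinearOrder C] [LinearOrder D] [LinearOrder E]
    (h : Emb B D) (h' : Emb C E) : Emb (Lex (B ⊕ C)) (Lex (D ⊕ E)) := by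
  obtain ⟨f, hf⟩ := h
  obtain ⟨g, hg⟩ := h'
  refine ⟨fun x => toLex (Sum.map f g (ofLex x)), ?_⟩
  intro x y hxy
  rcases x with x | x <;> rcases y with y | y
  · exact Sum.Lex.inl_lt_inl_iff.2 (hf (Sum.Lex.inl_lt_inl_iff.1 hxy))
  · exact Sum.Lex.inl_lt_inr _ _
  · exact absurd hxy Sum.Lex.not_inr_lt_inl
  · exact Sum.Lex.inr_lt_inr_iff.2 (hg (Sum.Lex.inr_lt_inr_iff.1 hxy))

/-- splitting a suborder of a lexicographic sum -/
theorem emb_split {X B C : Type} [LinearOrder X] [LinearOrder B] [LinearOrder C]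
    (f : X → Lex (B ⊕ C)) (hf : StrictMono f) :
    Emb X (Lex (({b | ∃ x, f x = toLex (Sum.inl b)} : Set B) ⊕
      ({c | ∃ x, f x = toLex (Sum.inr c)} : Set C))) := by
  classical
  have key : ∀ x : X, (∃ b, f x = toLex (Sum.inl b)) ∨ (∃ c, f x = toLex (Sum.inr c)) := by
    intro x
    rcases hx : ofLex (f x) with b | c
    · exact Or.inl ⟨b, by rw [← hx]; rfl⟩
    · exact Or.inr ⟨c, by rw [← hx]; rfl⟩
  refine ⟨fun x => if h : ∃ b, f x = toLex (Sum.inl b) then
    toLex (Sum.inl ⟨h.choose, x, h.choose_spec⟩) else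
    toLex (Sum.inr ⟨((key x).resolve_left h).choose, x, ((key x).resolve_left h).choose_spec⟩), ?_⟩
  intro x y hxy
  have hlt := hf hxy
  by_cases hx : ∃ b, f x = toLex (Sum.inl b)
  · by_cases hy : ∃ b, f y = toLex (Sum.inl b)
    · simp only [hx, hy, dif_pos]
      refine Sum.Lex.inl_lt_inl_iff.2 ?_
      show hx.choose < hy.choose
      rw [hx.choose_spec, hy.choose_spec] at hlt
      exact Sum.Lex.inl_lt_inl_iff.1 hlt
    · simp only [hx, hy, dif_pos, dif_neg, not_false_eq_true]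
      exact Sum.Lex.inl_lt_inr _ _
  · have hx' := (key x).resolve_left hx
    by_cases hy : ∃ b, f y = toLex (Sum.inl b)
    · exfalso
      obtain ⟨c, hc⟩ := hx'
      obtain ⟨b, hb⟩ := hy
      rw [hc, hb] at hlt
      exact Sum.Lex.not_inr_lt_inl hlt
    · simp only [hx, hy, dif_neg, not_false_eq_true]
      refine Sum.Lex.inr_lt_inr_iff.2 ?_
      show ((key x).resolve_left hx).choose < ((key y).resolve_left hy).choose
      rw [((key x).resolve_left hx).choose_spec, ((key y).resolve_left hy).choose_spec] at hlt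
      exact Sum.Lex.inr_lt_inr_iff.1 hlt

/-- LEMMA A (file Twin.lean): the sum of two twins is a counterexample. -/
theorem twin (B C : Type) [LinearOrder B] [LinearOrder C]
    (hBB : Emb (Lex (B ⊕ B)) B) (hCC : Emb (Lex (C ⊕ C)) C)
    (hBC : ¬ Emb B C) (hCB : ¬ Emb C B)
    (hB : ∀ s : Set B, ¬ Emb B s → Emb s C)
    (hC : ∀ s : Set C, ¬ Emb C s → Emb s B) :
    ¬ (∀ (A : Type) [LinearOrder A],
      (∀ (X : Type) [LinearOrder X],
        Nonempty (X ↪o A) → IsEmpty (A ↪o X) →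
          (Nonempty (Lex (X ⊕ X) ↪o A) ∧ IsEmpty (A ↪o Lex (X ⊕ X)))) →
      ∀ (B C : Type) [LinearOrder B] [LinearOrder C],
        Nonempty (A ≃o Lex (B ⊕ C)) →
          Nonempty (A ↪o B) ∨ Nonempty (A ↪o C)) := by
  intro H
  have h := H (Lex (B ⊕ C)) ?_ B C ⟨OrderIso.refl _⟩
  · rcases h with h | h
    · exact hCB ((emb_inr B C).trans (emb_iff.2 h))
    · exact hBC ((emb_inl B C).trans (emb_iff.2 h))
  · intro X _ hXA hAX
    obtain ⟨e⟩ := hXA
    have hsplit := emb_split e e.strictMono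
    set s : Set B := {b | ∃ x, e x = toLex (Sum.inl b)} with hs
    set t : Set C := {c | ∃ x, e x = toLex (Sum.inr c)} with ht
    by_cases h1 : Emb B s
    · by_cases h2 : Emb C t
      · exfalso
        -- then `B + C` embeds in `X`
        obtain ⟨f, hf⟩ := h1
        obtain ⟨g, hg⟩ := h2
        have hA : Emb (Lex (B ⊕ C)) X := by
          refine ⟨fun a => Sum.elim (fun b => (f b).2.choose) (fun c => (g c).2.choose) (ofLex a), ?_⟩
          intro a a' haa'
          rw [← e.lt_iff_lt]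
          rcases a with a | a <;> rcases a' with a' | a'
          · show e (f a).2.choose < e (f a').2.choose
            rw [(f a).2.choose_spec, (f a').2.choose_spec]
            exact Sum.Lex.inl_lt_inl_iff.2 (hf (Sum.Lex.inl_lt_inl_iff.1 haa'))
          · show e (f a).2.choose < e (g a').2.choose
            rw [(f a).2.choose_spec, (g a').2.choose_spec]
            exact Sum.Lex.inl_lt_inr _ _
          · exact absurd haa' Sum.Lex.not_inr_lt_inl
          · show e (g a).2.choose < e (g a').2.choose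
            rw [(g a).2.choose_spec, (g a').2.choose_spec]
            exact Sum.Lex.inr_lt_inr_iff.2 (hg (Sum.Lex.inr_lt_inr_iff.1 haa'))
        obtain ⟨φ⟩ := emb_iff.1 hA
        exact hAX.false φ
      · -- `t` embeds in `B`, so `X` embeds in `B`
        have hXB : Emb X B := hsplit.trans ((emb_sum (⟨fun b => b.1, fun _ _ h => h⟩) (hC t h2)).trans hBB)
        have hXX : Emb (Lex (X ⊕ X)) B := (emb_sum hXB hXB).trans hBB
        refine ⟨emb_iff.1 (hXX.trans (emb_inl B C)), ⟨fun φ => ?_⟩⟩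
        exact hCB ((emb_inr B C).trans ((emb_iff.2 ⟨φ⟩).trans hXX))
    · have hXC : Emb X C := hsplit.trans ((emb_sum (hB s h1) (⟨fun b => b.1, fun _ _ h => h⟩)).trans hCC)
      have hXX : Emb (Lex (X ⊕ X)) C := (emb_sum hXC hXC).trans hCC
      refine ⟨emb_iff.1 (hXX.trans (emb_inr B C)), ⟨fun φ => ?_⟩⟩
      exact hBC ((emb_inl B C).trans ((emb_iff.2 ⟨φ⟩).trans hXX))

end Pool.Agent.Lib.MP_8b3477_lc
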